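import Pool.Agent.N840.FC.Sym

/-!
# The cyclotomic and the other members of a symmetric family
-/

set_option autoImplicit false

namespace Pool.Agent.U549.LF

open Pool.Agent.N840.FC

section

variable {ι F : Type*} [Field F]

/-- the triple is `(1 : ω : ω ^ 2)` -/
def cy (w : ι → Fin 3 → F) (i : ι) : Prop := w i 0 ^ 2 + w i 0 * w i 1 + w i 1 ^ 2 = 0

variable {w : ι → Fin 3 → F}

theorem cy_iff01 (h : Sym w) (i : ι) :
    cy w i ↔ (w i 0 / w i 1) ^ 2 + w i 0 / w i 1 + 1 = 0 := by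
  have h1 := h.ne i 1
  unfold cy
  constructor
  · intro h2
    field_simp
    linear_combination h2
  · intro h2
    field_simp at h2
    linear_combination h2

theorem cy_iff12 (h : Sym w) (i : ι) :
    cy w i ↔ (w i 1 / w i 2) ^ 2 + w i 1 / w i 2 + 1 = 0 := by
  have h1 := h.ne i 2
  have h3 := h.sum i
  have e : w i 0 ^ 2 + w i 0 * w i 1 + w i 1 ^ 2 = w i 1 ^ 2 + w i 1 * w i 2 + w i 2 ^ 2 := by
    linear_combination (w i 0 - w i 2) * h3
  unfold cy
  rw [e]
  constructor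
  · intro h2
    field_simp
    linear_combination h2
  · intro h2
    field_simp at h2
    linear_combination h2

theorem inv_cy {a b : F} (ha : a ≠ 0) (hb : b ≠ 0) :
    (a / b) ^ 2 + a / b + 1 = 0 ↔ (b / a) ^ 2 + b / a + 1 = 0 := by
  constructor
  · intro h
    field_simp at h ⊢
    linear_combination h
  · intro h
    field_simp at h ⊢
    linear_combination h

/-- both parts of a symmetric family are symmetric -/
theorem Sym.restrict (h : Sym w) (P : ι → Prop) (hP : (∀ i, P i ↔ cy w i) ∨ ∀ i, P i ↔ ¬ cy w i) :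
    Sym (fun i : {i // P i} => w i.1) := by
  obtain ⟨β, hβ⟩ := h.s1
  obtain ⟨β', hβ'⟩ := h.s2
  have c1 : ∀ i, cy w (β i) ↔ cy w i := by
    intro i
    rw [cy_iff01 h, cy_iff01 h, hβ, inv_cy (h.ne i 1) (h.ne i 0)]
  have c2 : ∀ i, cy w (β' i) ↔ cy w i := by
    intro i
    rw [cy_iff12 h, cy_iff12 h, hβ', inv_cy (h.ne i 2) (h.ne i 1)]
  have d : ∀ γ : Equiv.Perm ι, (∀ i, cy w (γ i) ↔ cy w i) → ∀ i, P (γ i) ↔ P i := by
    intro γ hγ i
    rcases hP with hP | hP
    · rw [hP, hP, hγ]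
    · rw [hP, hP, hγ]
  refine ⟨fun i a => h.ne _ _, fun i => h.sum _, ?_, ?_⟩
  · exact ⟨β.subtypePerm (d β c1), fun i => hβ i.1⟩
  · exact ⟨β'.subtypePerm (d β' c2), fun i => hβ' i.1⟩

variable [Fintype ι]

/-- the number of triples `(1 : ω : ω ^ 2)` and `(1 : ω ^ 2 : ω)` is even -/
theorem Sym.even_cy (h : Sym w) (h3 : (3 : F) ≠ 0) (hall : ∀ i, cy w i) :
    Even (Fintype.card ι) := by
  classical
  by_cases hne : Nonempty ι
  swap
  · rw [not_nonempty_iff] at hne
    rw [Fintype.card_eq_zero]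
    exact ⟨0, rfl⟩
  obtain ⟨i0⟩ := hne
  obtain ⟨o, ho⟩ : ∃ o : F, o = w i0 0 / w i0 1 := ⟨_, rfl⟩
  have hoo : o ^ 2 + o + 1 = 0 := by
    rw [ho]
    exact (cy_iff01 h i0).1 (hall i0)
  have ho0 : o ≠ 0 := by
    rintro rfl
    simp at hoo
  have hinv : o⁻¹ = -1 - o := by
    field_simp
    linear_combination hoo
  have hne : o ≠ o⁻¹ := by
    intro h1
    rw [hinv] at h1
    apply h3
    have h2 : (2 : F) * o = -1 := by linear_combination h1
    linear_combination 4 * hoo - (2 * o + 1) * h2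
  have hval : ∀ i, w i 0 / w i 1 = o ∨ w i 0 / w i 1 = o⁻¹ := by
    intro i
    have h1 := (cy_iff01 h i).1 (hall i)
    have h2 : (w i 0 / w i 1 - o) * (w i 0 / w i 1 - o⁻¹) = 0 := by
      rw [hinv]
      linear_combination h1 - hoo
    rcases mul_eq_zero.1 h2 with h3 | h3
    · exact Or.inl (sub_eq_zero.1 h3)
    · exact Or.inr (sub_eq_zero.1 h3)
  obtain ⟨β, hβ⟩ := h.s1
  have hβ' : ∀ i, w (β i) 0 / w (β i) 1 = (w i 0 / w i 1)⁻¹ := by
    intro i
    rw [hβ i, inv_div]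
  obtain ⟨A, hA⟩ : ∃ A : Finset ι, A = Finset.univ.filter fun i => w i 0 / w i 1 = o := ⟨_, rfl⟩
  obtain ⟨B, hB⟩ : ∃ B : Finset ι, B = Finset.univ.filter fun i => w i 0 / w i 1 = o⁻¹ := ⟨_, rfl⟩
  have h1 : A.card ≤ B.card := by
    rw [← Finset.card_map β.toEmbedding]
    apply Finset.card_le_card
    intro j hj
    obtain ⟨i, hi, rfl⟩ := Finset.mem_map.1 hj
    rw [hA, Finset.mem_filter] at hi
    rw [hB, Finset.mem_filter]
    refine ⟨Finset.mem_univ _, ?_⟩
    show w (β i) 0 / w (β i) 1 = o⁻¹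
    rw [hβ', hi.2]
  have h2 : B.card ≤ A.card := by
    rw [← Finset.card_map β.toEmbedding]
    apply Finset.card_le_card
    intro j hj
    obtain ⟨i, hi, rfl⟩ := Finset.mem_map.1 hj
    rw [hB, Finset.mem_filter] at hi
    rw [hA, Finset.mem_filter]
    refine ⟨Finset.mem_univ _, ?_⟩
    show w (β i) 0 / w (β i) 1 = o
    rw [hβ', hi.2, inv_inv]
  have h4 : Disjoint A B := by
    rw [Finset.disjoint_left]
    intro i hi hi'
    rw [hA, Finset.mem_filter] at hi
    rw [hB, Finset.mem_filter] at hi'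
    exact hne (hi.2.symm.trans hi'.2)
  have h5 : A ∪ B = Finset.univ := by
    ext i
    rw [Finset.mem_union, hA, hB, Finset.mem_filter, Finset.mem_filter]
    simpa using hval i
  refine ⟨A.card, ?_⟩
  rw [← Finset.card_univ, ← h5, Finset.card_union_of_disjoint h4]
  omega

end

end Pool.Agent.U549.LF
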