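import Pool.Agent.U549.LF.Place
import Pool.Agent.U549.LF.Sub

/-!
# The primes above `p` at which the three valuations are equal
-/

set_option autoImplicit false

namespace Pool.Agent.U549.LF

open NumberField IsDedekindDomain Polynomial Pool.Agent.Y546.WQ Pool.Agent.N840.FC

theorem BernS.mono {p m s t : ℕ} (h : BernS p m t) (hst : s ≤ t) : BernS p m s := by
  rcases h with h | h
  · refine Or.inl ⟨by omega, fun k hk => ?_⟩
    have := h.2 k hk
    omega
  · refine Or.inr ?_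
    obtain ⟨u, rfl⟩ := Nat.exists_eq_add_of_le hst
    have e : u * 1 ≤ u * (((irr p).card + 1) * ((irr p).card + 2)) := by
      apply Nat.mul_le_mul_left
      nlinarith [(irr p).card.zero_le]
    rw [add_mul] at h
    omega

section

variable {K : Type} [Field K] [NumberField K]

/-- `x`, `y` and `z` have the same valuation at `v` -/
def EqualAt (v : HeightOneSpectrum (𝓞 K)) (x y z : K) : Prop :=
  v.valuation K x = v.valuation K y ∧ v.valuation K y = v.valuation K z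

/-- `x ^ k / y ^ k` is a primitive cube root of unity modulo `v` -/
def CubeAt (v : HeightOneSpectrum (𝓞 K)) (k : ℕ) (x y : K) : Prop :=
  v.valuation K ((x ^ k) ^ 2 + x ^ k * y ^ k + (y ^ k) ^ 2) < v.valuation K ((y ^ k) ^ 2)

end

/-- the main theorem -/
theorem main {p : ℕ} (hp : p.Prime) {K : Type} [Field K] [NumberField K] (k : ℕ)
    {x y z : K} (hx : x ≠ 0) (hy : y ≠ 0) (hz : z ≠ 0)
    (h : x ^ (p * k) + y ^ (p * k) = z ^ (p * k)) (R C : Finset (HeightOneSpectrum (𝓞 K)))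
    (hR : ∀ v : HeightOneSpectrum (𝓞 K), v ∈ R ↔ (((p : ℕ) : 𝓞 K) ∈ v.asIdeal ∧
      EqualAt v x y z ∧ ¬ CubeAt v k x y))
    (hC : ∀ v : HeightOneSpectrum (𝓞 K), v ∈ C ↔ (((p : ℕ) : 𝓞 K) ∈ v.asIdeal ∧
      EqualAt v x y z ∧ CubeAt v k x y))
    (r c t : ℕ) (hr : r = ∑ v ∈ R, ld p v) (hc : c = ∑ v ∈ C, ld p v)
    (ht : t = Module.finrank ℚ K ∨ r + c ≤ t) (hreg : BernS p (Module.finrank ℚ K) t) :
    (Even c ∧ ∀ v ∈ C, ¬ TT (Ideal.absNorm v.asIdeal) (p * k) ∧ (p % 3 = 1 → 2 * ld p v ≤ c)) ∧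
    (3 ∣ r ∧ ∀ v ∈ R, 2 * ld p v ≤ r ∧ (¬ 3 ∣ rd p v → 3 * ld p v ≤ r) ∧
      (¬ 2 ∣ rd p v → ¬ 3 ∣ rd p v →
        (¬ p ^ 2 ∣ 2 ^ (p - 1) - 1 ∨ ∀ w : 𝓞 K, w ^ k - 2 ∉ v.asIdeal) → 6 * ld p v ≤ r)) ∧
    (Odd r → p ^ 2 ∣ 2 ^ (p - 1) - 1 ∧ ∃ v₁ ∈ R, ∃ v₂ ∈ R, ∃ v₃ ∈ R,
      v₁ ≠ v₂ ∧ v₁ ≠ v₃ ∧ v₂ ≠ v₃ ∧ ∃ r₁ r₂ r₃ s₂ s₃ : 𝓞 K,
        r₁ ^ k - 2 ∈ v₁.asIdeal ∧ r₂ ^ k - 2 ∈ v₂.asIdeal ∧ r₃ ^ k - 2 ∈ v₃.asIdeal ∧
        s₂ ^ k + 1 ∈ v₂.asIdeal ∧ s₃ ^ k + 1 ∈ v₃.asIdeal) := by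
  classical
  have hfact : Fact p.Prime := ⟨hp⟩
  have hm := Module.finrank_pos (R := ℚ) (M := K)
  have h5 : Module.finrank ℚ K + 3 ≤ p := hreg.le
  have hp4 : p ≠ 4 := by
    rintro rfl
    norm_num at hp
  have hp5 : 5 ≤ p := by omega
  have hp2 : p ≠ 2 := by omega
  have hp3 : p ≠ 3 := by omega
  have hodd : Odd p := hp.odd_of_ne_two hp2
  have hk0 : k ≠ 0 := by
    rintro rfl
    rw [mul_zero, pow_zero, pow_zero, pow_zero] at h
    norm_num at h
  obtain ⟨E, _, _, ⟨cE⟩⟩ := Y978.WQ.main p hp2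
  obtain ⟨N, _, _, _, hG, hcard, hdvf⟩ := Y258.WQ.exists_field E K
  -- the scaled solution
  obtain ⟨a, ha, X, Y, Z, hXa, hYa, hZa, hX0, hY0, hZ0, hcp⟩ := prepB hp (pow_ne_zero k hx)
    (pow_ne_zero k hy) (neg_ne_zero.2 (pow_ne_zero k hz))
  have hXYZ : X ^ p + Y ^ p + Z ^ p = 0 := by
    apply RingOfIntegers.coe_injective
    rw [map_zero, map_add, map_add, map_pow, map_pow, map_pow, hXa, hYa, hZa, mul_pow, mul_pow,
      mul_pow, hodd.neg_pow, ← pow_mul, ← pow_mul, ← pow_mul, mul_comm k p]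
    linear_combination a ^ p * h
  have hs' : Mix p K X Y Z := ⟨hX0, hY0, hZ0, hXYZ, hcp⟩
  -- the residue field of a field containing all conjugates
  obtain ⟨Q, hQ, hQp⟩ := exists_above (K := N) p hp
  have hQ0 : Q ≠ ⊥ := by
    rintro rfl
    rw [Ideal.mem_bot, Nat.cast_eq_zero] at hQp
    exact hp.ne_zero hQp
  have hQm : Q.IsMaximal := hQ.isMaximal hQ0
  let _ : Field (𝓞 N ⧸ Q) := Ideal.Quotient.field Q
  have hch : CharP (𝓞 N ⧸ Q) p := charP_quot Q hQ p hp hQp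
  let F := AlgebraicClosure (𝓞 N ⧸ Q)
  have hchF : CharP F p := charP_of_injective_algebraMap (algebraMap (𝓞 N ⧸ Q) F).injective p
  let ψ : 𝓞 N →+* F := (algebraMap (𝓞 N ⧸ Q) F).comp (Ideal.Quotient.mk Q)
  have hψ : ∀ w : 𝓞 N, ψ w = 0 ↔ w ∈ Q := by
    intro w
    constructor
    · intro h
      have h1 : algebraMap (𝓞 N ⧸ Q) F (Ideal.Quotient.mk Q w) = 0 := h
      rw [map_eq_zero_iff _ (algebraMap (𝓞 N ⧸ Q) F).injective] at h1
      exact Ideal.Quotient.eq_zero_iff_mem.1 h1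
    · intro h
      show algebraMap (𝓞 N ⧸ Q) F (Ideal.Quotient.mk Q w) = 0
      rw [Ideal.Quotient.eq_zero_iff_mem.2 h, map_zero]
  have natF : ∀ q : ℕ, 0 < q → q < p → (q : F) ≠ 0 := by
    intro q hq hqp
    rw [Ne, CharP.cast_eq_zero_iff F p]
    intro hd
    have := Nat.le_of_dvd hq hd
    omega
  have h3F : (3 : F) ≠ 0 := by exact_mod_cast natF 3 (by norm_num) (by omega)
  have h2F : (2 : F) ≠ 0 := by exact_mod_cast natF 2 (by norm_num) (by omega)
  have hPp : ∀ τ : K →+* N, ((p : ℕ) : 𝓞 K) ∈ Q.comap (RingOfIntegers.mapRingHom τ) := by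
    intro τ
    rw [Ideal.mem_comap, map_natCast]
    exact hQp
  have hP0 : ∀ τ : K →+* N, Q.comap (RingOfIntegers.mapRingHom τ) ≠ ⊥ := by
    intro τ h0
    have := hPp τ
    rw [h0, Ideal.mem_bot, Nat.cast_eq_zero] at this
    exact hp.ne_zero this
  let pl : (K →+* N) → HeightOneSpectrum (𝓞 K) := fun τ =>
    ⟨Q.comap (RingOfIntegers.mapRingHom τ), hQ.comap _, hP0 τ⟩
  have hplp : ∀ τ, ((p : ℕ) : 𝓞 K) ∈ (pl τ).asIdeal := hPp
  have hplm : ∀ (τ : K →+* N) (w : 𝓞 K), ψ (RingOfIntegers.mapRingHom τ w) = 0 ↔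
      w ∈ (pl τ).asIdeal := by
    intro τ w
    rw [hψ]
    rfl
  -- the sets `R`, `C` and the scaled solution
  have hRC : ∀ v : HeightOneSpectrum (𝓞 K), (v ∈ R ∨ v ∈ C) ↔
      (((p : ℕ) : 𝓞 K) ∈ v.asIdeal ∧ EqualAt v x y z) := by
    intro v
    rw [hR, hC]
    tauto
  have hSp : ∀ v : HeightOneSpectrum (𝓞 K), (v ∈ R ∨ v ∈ C) → ((p : ℕ) : 𝓞 K) ∈ v.asIdeal :=
    fun v hv => ((hRC v).1 hv).1
  have eX : ∀ v : HeightOneSpectrum (𝓞 K), v.valuation K (algebraMap (𝓞 K) K X) =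
      v.valuation K a * v.valuation K x ^ k := by
    intro v
    rw [hXa, map_mul, map_pow]
  have eY : ∀ v : HeightOneSpectrum (𝓞 K), v.valuation K (algebraMap (𝓞 K) K Y) =
      v.valuation K a * v.valuation K y ^ k := by
    intro v
    rw [hYa, map_mul, map_pow]
  have eZ : ∀ v : HeightOneSpectrum (𝓞 K), v.valuation K (algebraMap (𝓞 K) K Z) =
      v.valuation K a * v.valuation K z ^ k := by
    intro v
    rw [hZa, map_mul, Valuation.map_neg, map_pow]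
  have va : ∀ v : HeightOneSpectrum (𝓞 K), v.valuation K a ≠ 0 :=
    fun v => (Valuation.ne_zero_iff _).2 ha
  have memS : ∀ v : HeightOneSpectrum (𝓞 K), ((p : ℕ) : 𝓞 K) ∈ v.asIdeal →
      ((v ∈ R ∨ v ∈ C) ↔ (X ∉ v.asIdeal ∧ Y ∉ v.asIdeal ∧ Z ∉ v.asIdeal)) := by
    intro v hpv
    rw [hRC]
    constructor
    · rintro ⟨-, h1, h2⟩
      have i1 : X ∈ v.asIdeal ↔ Y ∈ v.asIdeal := by
        rw [← v.valuation_lt_one_iff_mem (K := K) X, ← v.valuation_lt_one_iff_mem (K := K) Y,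
          eX, eY, h1]
      have i2 : Y ∈ v.asIdeal ↔ Z ∈ v.asIdeal := by
        rw [← v.valuation_lt_one_iff_mem (K := K) Y, ← v.valuation_lt_one_iff_mem (K := K) Z,
          eY, eZ, h2]
      have i3 := hcp v.asIdeal v.isPrime hpv
      tauto
    · rintro ⟨h1, h2, h3⟩
      have j1 : v.valuation K (algebraMap (𝓞 K) K X) = 1 := val_one v X h1
      have j2 : v.valuation K (algebraMap (𝓞 K) K Y) = 1 := val_one v Y h2
      have j3 : v.valuation K (algebraMap (𝓞 K) K Z) = 1 := val_one v Z h3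
      rw [eX] at j1
      rw [eY] at j2
      rw [eZ] at j3
      refine ⟨hpv, ?_, ?_⟩
      · exact (pow_left_inj₀ zero_le zero_le hk0).1 (mul_left_cancel₀ (va v) (j1.trans j2.symm))
      · exact (pow_left_inj₀ zero_le zero_le hk0).1 (mul_left_cancel₀ (va v) (j2.trans j3.symm))
  have memC : ∀ v : HeightOneSpectrum (𝓞 K), (v ∈ R ∨ v ∈ C) →
      (v ∈ C ↔ X ^ 2 + X * Y + Y ^ 2 ∈ v.asIdeal) := by
    intro v hv
    have hpv := hSp v hv
    have h1 := ((memS v hpv).1 hv).2.1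
    have j2 : v.valuation K (algebraMap (𝓞 K) K Y) = 1 := val_one v Y h1
    have e1 : algebraMap (𝓞 K) K (X ^ 2 + X * Y + Y ^ 2) =
        a ^ 2 * ((x ^ k) ^ 2 + x ^ k * y ^ k + (y ^ k) ^ 2) := by
      simp only [map_add, map_mul, map_pow]
      rw [hXa, hYa]
      ring
    have e2 : v.valuation K (a ^ 2) * v.valuation K ((y ^ k) ^ 2) = 1 := by
      rw [← map_mul]
      have e3 : a ^ 2 * (y ^ k) ^ 2 = (algebraMap (𝓞 K) K Y) ^ 2 := by
        rw [hYa]
        ring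
      rw [e3, map_pow, j2, one_pow]
    have va2 : v.valuation K (a ^ 2) ≠ 0 := (Valuation.ne_zero_iff _).2 (pow_ne_zero 2 ha)
    have e4 : (v ∈ C ↔ CubeAt v k x y) := by
      constructor
      · exact fun h => ((hC v).1 h).2.2
      · exact fun h => (hC v).2 ⟨hpv, ((hRC v).1 hv).2, h⟩
    rw [e4, ← v.valuation_lt_one_iff_mem (K := K)]
    change _ ↔ v.valuation K (algebraMap (𝓞 K) K (X ^ 2 + X * Y + Y ^ 2)) < 1
    rw [e1, map_mul, ← e2]
    unfold CubeAt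
    exact (mul_lt_mul_iff_right₀ (zero_lt_iff.2 va2)).symm
  obtain ⟨D, hD0⟩ : ∃ D : Finset (K →+* N), D = Finset.univ.filter fun τ =>
    (pl τ ∈ R ∨ pl τ ∈ C) := ⟨_, rfl⟩
  have hDS : ∀ τ, τ ∈ D ↔ (pl τ ∈ R ∨ pl τ ∈ C) := by
    intro τ
    rw [hD0]
    simp
  have hD : ∀ τ : K →+* N, τ ∈ D ↔
      (ψ (RingOfIntegers.mapRingHom τ X) ≠ 0 ∧ ψ (RingOfIntegers.mapRingHom τ Y) ≠ 0 ∧
        ψ (RingOfIntegers.mapRingHom τ Z) ≠ 0) := by
    intro τ
    rw [hDS, memS _ (hplp τ), Ne, Ne, Ne, hplm, hplm, hplm]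
  have plemb : ∀ (v : HeightOneSpectrum (𝓞 K)) (τ : K →+* N), τ ∈ emb Q v.asIdeal ↔ pl τ = v := by
    intro v τ
    rw [mem_emb]
    constructor
    · intro h1
      exact HeightOneSpectrum.ext h1
    · intro h1
      rw [← h1]
  have cardA : ∀ A : Finset (HeightOneSpectrum (𝓞 K)), (∀ v ∈ A, v ∈ R ∨ v ∈ C) →
      (Finset.univ.filter fun τ : K →+* N => pl τ ∈ A).card = ∑ v ∈ A, ld p v := by
    intro A hA
    rw [Finset.card_eq_sum_card_fiberwise (s := Finset.univ.filter fun τ : K →+* N => pl τ ∈ A)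
      (t := A) (f := pl) (fun τ hτ => (Finset.mem_filter.1 (Finset.mem_coe.1 hτ)).2)]
    refine Finset.sum_congr rfl fun v hv => ?_
    rw [← emb_card hcard (by omega) Q hQ hQp v (hSp v (hA v hv))]
    congr 1
    ext τ
    rw [Finset.mem_filter, Finset.mem_filter, plemb]
    constructor
    · exact fun h => h.2
    · intro h
      exact ⟨⟨Finset.mem_univ _, h ▸ hv⟩, h⟩
  have hdisj : Disjoint R C := by
    rw [Finset.disjoint_left]
    intro v h1 h2
    exact ((hR v).1 h1).2.2 ((hC v).1 h2).2.2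
  have hDc : D.card = r + c := by
    rw [hr, hc, ← Finset.sum_union hdisj, ← cardA (R ∪ C) (fun v hv => Finset.mem_union.1 hv), hD0]
    simp only [Finset.mem_union]
  have hregD : BernS p (Module.finrank ℚ K) D.card := by
    apply hreg.mono
    rcases ht with ht | ht
    · rw [ht, ← hcard, Nat.card_eq_fintype_card, ← Finset.card_univ]
      exact Finset.card_le_univ D
    · rw [hDc]
      exact ht
  have lin : ∀ v : HeightOneSpectrum (𝓞 K), ((p : ℕ) : 𝓞 K) ∈ v.asIdeal → X + Y + Z ∈ v.asIdeal :=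
    fun v hpv => lin_p hp v.asIdeal v.isPrime hpv hXYZ
  have hX1 : ∀ τ : D, ψ (RingOfIntegers.mapRingHom τ.1 X) ≠ 0 := fun τ => ((hD _).1 τ.2).1
  have hY1 : ∀ τ : D, ψ (RingOfIntegers.mapRingHom τ.1 Y) ≠ 0 := fun τ => ((hD _).1 τ.2).2.1
  have hZ1 : ∀ τ : D, ψ (RingOfIntegers.mapRingHom τ.1 Z) ≠ 0 := fun τ => ((hD _).1 τ.2).2.2
  have S' : Sym (fun τ : D => fam (K := K) ψ ![X, Y, Z] τ.1) := by
    refine ⟨?_, ?_, ?_, ?_⟩
    · intro τ b
      fin_cases b
      · exact hX1 τ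
      · exact hY1 τ
      · exact hZ1 τ
    · intro τ
      show ψ (RingOfIntegers.mapRingHom τ.1 X) + ψ (RingOfIntegers.mapRingHom τ.1 Y) +
        ψ (RingOfIntegers.mapRingHom τ.1 Z) = 0
      rw [← map_add, ← map_add, ← map_add, ← map_add, hplm]
      exact lin _ (hplp τ.1)
    · refine perm_of_prod (fun τ : D => ψ (RingOfIntegers.mapRingHom τ.1 X))
        (fun τ : D => ψ (RingOfIntegers.mapRingHom τ.1 Y))
        (fun τ : D => ψ (RingOfIntegers.mapRingHom τ.1 Y))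
        (fun τ : D => ψ (RingOfIntegers.mapRingHom τ.1 X)) hY1 hX1 fun t ht => ?_
      rw [Finset.prod_coe_sort D (fun τ => ψ (RingOfIntegers.mapRingHom τ X) +
        t * ψ (RingOfIntegers.mapRingHom τ Y)),
        Finset.prod_coe_sort D (fun τ => ψ (RingOfIntegers.mapRingHom τ Y) +
        t * ψ (RingOfIntegers.mapRingHom τ X))]
      exact pal_prod hcard hdvf hp2 cE Q hQ hQp ψ hψ hs' D hD hregD t ht
    · refine perm_of_prod (fun τ : D => ψ (RingOfIntegers.mapRingHom τ.1 Y))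
        (fun τ : D => ψ (RingOfIntegers.mapRingHom τ.1 Z))
        (fun τ : D => ψ (RingOfIntegers.mapRingHom τ.1 Z))
        (fun τ : D => ψ (RingOfIntegers.mapRingHom τ.1 Y)) hZ1 hY1 fun t ht => ?_
      rw [Finset.prod_coe_sort D (fun τ => ψ (RingOfIntegers.mapRingHom τ Y) +
        t * ψ (RingOfIntegers.mapRingHom τ Z)),
        Finset.prod_coe_sort D (fun τ => ψ (RingOfIntegers.mapRingHom τ Z) +
        t * ψ (RingOfIntegers.mapRingHom τ Y))]
      exact pal_prod hcard hdvf hp2 cE Q hQ hQp ψ hψ hs'.rot D (fun τ => by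
        rw [hD]
        tauto) hregD t ht
  have natP : ∀ (v : HeightOneSpectrum (𝓞 K)), ((p : ℕ) : 𝓞 K) ∈ v.asIdeal → ∀ q : ℕ, 0 < q →
      q < p → (q : 𝓞 K) ∉ v.asIdeal := by
    intro v hpv q hq hqp h0
    have h1 := int_notMem v.asIdeal v.isPrime p hp hpv (q : ℤ) (by
      intro hd
      have hd' : p ∣ q := by exact_mod_cast hd
      have := Nat.le_of_dvd hq hd'
      omega)
    apply h1
    exact_mod_cast h0
  have hV : ∀ v : HeightOneSpectrum (𝓞 K), (v ∈ R ∨ v ∈ C) →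
      ∀ b, (![X, Y, Z] : Fin 3 → 𝓞 K) b ∉ v.asIdeal := by
    intro v hv b
    obtain ⟨h1, h2, h3⟩ := (memS v (hSp v hv)).1 hv
    fin_cases b
    · exact h1
    · exact h2
    · exact h3
  -- no primitive cube root of unity
  have noOm : ∀ v : HeightOneSpectrum (𝓞 K), (v ∈ R ∨ v ∈ C) →
      TT (Ideal.absNorm v.asIdeal) (p * k) → X ^ 2 + X * Y + Y ^ 2 ∉ v.asIdeal := by
    intro v hvS hj hmem
    have hpv := hSp v hvS
    have hvm : v.asIdeal.IsMaximal := v.isMaximal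
    let _ : Field (𝓞 K ⧸ v.asIdeal) := Ideal.Quotient.field v.asIdeal
    have hfin : Finite (𝓞 K ⧸ v.asIdeal) := Ideal.finiteQuotientOfFreeOfNeBot v.asIdeal v.ne_bot
    obtain ⟨r, hr⟩ := exists_res v hz ((hRC v).1 hvS).2.2
    have h1 := hr k a Y (-Z) hYa (by rw [map_neg, hZa]; ring)
    have hmem2 : Y ^ 2 + Y * Z + Z ^ 2 ∈ v.asIdeal := by
      have e : Y ^ 2 + Y * Z + Z ^ 2 = (X ^ 2 + X * Y + Y ^ 2) + (Z - X) * (X + Y + Z) := by ring
      rw [e]
      exact v.asIdeal.add_mem hmem (v.asIdeal.mul_mem_left _ (lin v hpv))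
    rw [← Ideal.Quotient.eq_zero_iff_mem, map_sub, map_mul, map_pow, map_neg] at h1
    rw [← Ideal.Quotient.eq_zero_iff_mem] at hmem2
    simp only [map_add, map_mul, map_pow] at hmem2
    have hZ1 : Ideal.Quotient.mk v.asIdeal Z ≠ 0 := fun h0 =>
      ((memS v hpv).1 hvS).2.2 (Ideal.Quotient.eq_zero_iff_mem.1 h0)
    have natv : ∀ q : ℕ, 0 < q → q < p → (q : 𝓞 K ⧸ v.asIdeal) ≠ 0 := by
      intro q hq hqp h0
      apply natP v hpv q hq hqp
      rw [← Ideal.Quotient.eq_zero_iff_mem, map_natCast]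
      exact h0
    have h3v : (3 : 𝓞 K ⧸ v.asIdeal) ≠ 0 := by exact_mod_cast natv 3 (by norm_num) (by omega)
    have h2v : (2 : 𝓞 K ⧸ v.asIdeal) ≠ 0 := by exact_mod_cast natv 2 (by norm_num) (by omega)
    have h6 := six_dvd h2v h3v
      (l := Ideal.Quotient.mk v.asIdeal Y / Ideal.Quotient.mk v.asIdeal Z)
      (m := Ideal.Quotient.mk v.asIdeal r) k (by
        field_simp
        linear_combination hmem2) (by
        field_simp
        linear_combination -h1)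
    have hN : Ideal.absNorm v.asIdeal = Nat.card (𝓞 K ⧸ v.asIdeal) := rfl
    apply hj
    rw [hN]
    have hcop : Nat.Coprime (Nat.card (𝓞 K ⧸ v.asIdeal) - 1) p := by
      rw [Nat.coprime_comm, Nat.Prime.coprime_iff_not_dvd hp]
      intro hd
      have hch2 : CharP (𝓞 K ⧸ v.asIdeal) p := charP_quot v.asIdeal v.isPrime p hp hpv
      have hft : Fintype (𝓞 K ⧸ v.asIdeal) := Fintype.ofFinite _
      have h7 : p ∣ Nat.card (𝓞 K ⧸ v.asIdeal) := by
        rw [← CharP.cast_eq_zero_iff (𝓞 K ⧸ v.asIdeal) p, Nat.card_eq_fintype_card]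
        exact FiniteField.cast_card_eq_zero _
      have h8 : 0 < Nat.card (𝓞 K ⧸ v.asIdeal) := Nat.card_pos
      have h9 := (Nat.dvd_sub h7 hd)
      have e : Nat.card (𝓞 K ⧸ v.asIdeal) - (Nat.card (𝓞 K ⧸ v.asIdeal) - 1) = 1 := by omega
      rw [e] at h9
      exact hp.one_lt.ne' (Nat.dvd_one.1 h9)
    rw [Nat.Coprime.gcd_mul_left_cancel_right k hcop.symm]
    exact h6
  -- residues
  have res : ∀ v : HeightOneSpectrum (𝓞 K), (v ∈ R ∨ v ∈ C) →
      (X - Y ∈ v.asIdeal → ∃ r : 𝓞 K, r ^ k - 2 ∈ v.asIdeal) ∧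
      (X - Z ∈ v.asIdeal → (∃ r : 𝓞 K, r ^ k - 2 ∈ v.asIdeal) ∧ ∃ r : 𝓞 K, r ^ k + 1 ∈ v.asIdeal) ∧
      (Y - Z ∈ v.asIdeal → (∃ r : 𝓞 K, r ^ k - 2 ∈ v.asIdeal) ∧
        ∃ r : 𝓞 K, r ^ k + 1 ∈ v.asIdeal) := by
    intro v hvS
    have hpv := hSp v hvS
    obtain ⟨-, h1, h2⟩ := (hRC v).1 hvS
    obtain ⟨hX1, hY1, hZ1⟩ := (memS v hpv).1 hvS
    have hl := lin v hpv
    have hvP := v.isPrime
    refine ⟨fun hXY => ?_, fun hXZ => ?_, fun hYZ => ?_⟩
    · obtain ⟨r, hr⟩ := exists_res v hx ((h1.trans h2).symm)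
      refine ⟨r, ?_⟩
      have e1 := hr k a (-Z) X (by rw [map_neg, hZa]; ring) hXa
      have e2 : (r ^ k - 2) * X ∈ v.asIdeal := by
        have : (r ^ k - 2) * X = -(-Z - r ^ k * X) - (X + Y + Z) - (X - Y) := by ring
        rw [this]
        exact v.asIdeal.sub_mem (v.asIdeal.sub_mem (v.asIdeal.neg_mem e1) hl) hXY
      exact (hvP.mem_or_mem e2).resolve_right hX1
    · constructor
      · obtain ⟨r, hr⟩ := exists_res v hz h2
        refine ⟨r, ?_⟩
        have e1 := hr k a Y (-Z) hYa (by rw [map_neg, hZa]; ring)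
        have e2 : (r ^ k - 2) * Z ∈ v.asIdeal := by
          have : (r ^ k - 2) * Z = (Y - r ^ k * -Z) - (X + Y + Z) + (X - Z) := by ring
          rw [this]
          exact v.asIdeal.add_mem (v.asIdeal.sub_mem e1 hl) hXZ
        exact (hvP.mem_or_mem e2).resolve_right hZ1
      · obtain ⟨r, hr⟩ := exists_res v hz (h1.trans h2)
        refine ⟨r, ?_⟩
        have e1 := hr k a X (-Z) hXa (by rw [map_neg, hZa]; ring)
        have e2 : (r ^ k + 1) * Z ∈ v.asIdeal := by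
          have : (r ^ k + 1) * Z = (X - r ^ k * -Z) - (X - Z) := by ring
          rw [this]
          exact v.asIdeal.sub_mem e1 hXZ
        exact (hvP.mem_or_mem e2).resolve_right hZ1
    · constructor
      · obtain ⟨r, hr⟩ := exists_res v hz (h1.trans h2)
        refine ⟨r, ?_⟩
        have e1 := hr k a X (-Z) hXa (by rw [map_neg, hZa]; ring)
        have e2 : (r ^ k - 2) * Z ∈ v.asIdeal := by
          have : (r ^ k - 2) * Z = (X - r ^ k * -Z) - (X + Y + Z) + (Y - Z) := by ring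
          rw [this]
          exact v.asIdeal.add_mem (v.asIdeal.sub_mem e1 hl) hYZ
        exact (hvP.mem_or_mem e2).resolve_right hZ1
      · obtain ⟨r, hr⟩ := exists_res v hz h2
        refine ⟨r, ?_⟩
        have e1 := hr k a Y (-Z) hYa (by rw [map_neg, hZa]; ring)
        have e2 : (r ^ k + 1) * Z ∈ v.asIdeal := by
          have : (r ^ k + 1) * Z = (Y - r ^ k * -Z) - (Y - Z) := by ring
          rw [this]
          exact v.asIdeal.sub_mem e1 hYZ
        exact (hvP.mem_or_mem e2).resolve_right hZ1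
  -- the two parts of the family
  have hcy : ∀ τ : D, cy (fun τ : D => fam (K := K) ψ ![X, Y, Z] τ.1) τ ↔ pl τ.1 ∈ C := by
    intro τ
    rw [memC _ ((hDS _).1 τ.2), ← hplm]
    simp only [map_add, map_mul, map_pow]
    rfl
  have hncy : ∀ τ : D, pl τ.1 ∈ R ↔ ¬ cy (fun τ : D => fam (K := K) ψ ![X, Y, Z] τ.1) τ := by
    intro τ
    rw [hcy]
    have h1 := (hDS _).1 τ.2
    have h2 : pl τ.1 ∈ R → pl τ.1 ∉ C := fun h3 => Finset.disjoint_left.1 hdisj h3
    tauto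
  have SR := Sym.restrict S' (fun i : D => pl i.1 ∈ R) (Or.inr hncy)
  have SC := Sym.restrict S' (fun i : D => pl i.1 ∈ C) (Or.inl fun i => (hcy i).symm)
  have cardι : ∀ A : Finset (HeightOneSpectrum (𝓞 K)), (∀ v ∈ A, v ∈ R ∨ v ∈ C) →
      Fintype.card {i : D // pl i.1 ∈ A} = ∑ v ∈ A, ld p v := by
    intro A hA
    rw [← cardA A hA, ← Fintype.card_subtype]
    exact Fintype.card_congr (Equiv.subtypeSubtypeEquivSubtype (p := fun τ => τ ∈ D)
      (q := fun τ => pl τ ∈ A) (fun {τ} h => (hDS τ).2 (hA _ h)))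
  have placeA : ∀ (A : Finset (HeightOneSpectrum (𝓞 K))) (_hA : ∀ v ∈ A, v ∈ R ∨ v ∈ C)
      (_SA : Sym (fun i : {i : D // pl i.1 ∈ A} => fam (K := K) ψ ![X, Y, Z] i.1.1)) (u : ℕ)
      (_hu : u = ∑ v ∈ A, ld p v), ∀ v ∈ A,
      (u < 2 * ld p v → X ^ 2 + X * Y + Y ^ 2 ∈ v.asIdeal ∧ p % 3 ≠ 1) ∧
      (u < 3 * ld p v → ¬ 3 ∣ rd p v → X ^ 2 + X * Y + Y ^ 2 ∈ v.asIdeal) ∧
      (u < 6 * ld p v → Nat.Coprime 6 (rd p v) →
        (X - Y ∈ v.asIdeal ∨ Y - Z ∈ v.asIdeal ∨ Z - X ∈ v.asIdeal) ∨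
        X ^ 2 + X * Y + Y ^ 2 ∈ v.asIdeal) := by
    intro A hA SA u hu v hvA
    have hpv := hSp v (hA v hvA)
    obtain ⟨T, hT0⟩ : ∃ T : Finset {i : D // pl i.1 ∈ A},
      T = Finset.univ.filter fun i => pl i.1.1 = v := ⟨_, rfl⟩
    have hT : ∀ i ∈ T, Q.comap (RingOfIntegers.mapRingHom i.1.1) = v.asIdeal := by
      intro i hi
      rw [hT0, Finset.mem_filter] at hi
      have := congrArg HeightOneSpectrum.asIdeal hi.2
      exact this
    have hTc : T.card = ld p v := by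
      rw [← emb_card hcard (by omega) Q hQ hQp v hpv]
      have hinj : Function.Injective (fun i : {i : D // pl i.1 ∈ A} => i.1.1) :=
        Subtype.val_injective.comp Subtype.val_injective
      rw [← Finset.card_map ⟨_, hinj⟩]
      congr 1
      ext τ
      rw [Finset.mem_map, plemb]
      constructor
      · rintro ⟨i, hi, rfl⟩
        rw [hT0, Finset.mem_filter] at hi
        exact hi.2
      · intro hτ
        have hτA : pl τ ∈ A := by
          rw [hτ]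
          exact hvA
        refine ⟨⟨⟨τ, (hDS τ).2 (hA _ hτA)⟩, hτA⟩, ?_, rfl⟩
        rw [hT0, Finset.mem_filter]
        exact ⟨Finset.mem_univ _, hτ⟩
    have := place_gen hp5 Q ψ hψ ![X, Y, Z] (fun i : {i : D // pl i.1 ∈ A} => i.1.1) SA v
      (rd p v) hpv (absNorm_rd v hpv) (hV v (hA v hvA)) (lin v hpv) T hT
    rw [cardι A hA, hTc, ← hu] at this
    exact this
  have placeR := placeA R (fun v hv => Or.inl hv) SR r hr
  have placeC := placeA C (fun v hv => Or.inr hv) SC c hc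
  have notC : ∀ v ∈ R, X ^ 2 + X * Y + Y ^ 2 ∉ v.asIdeal := by
    intro v hv h1
    exact Finset.disjoint_left.1 hdisj hv ((memC v (Or.inl hv)).2 h1)
  have hcardR : Fintype.card {i : D // pl i.1 ∈ R} = r := by
    rw [hr]
    exact cardι R (fun v hv => Or.inl hv)
  have hcardC : Fintype.card {i : D // pl i.1 ∈ C} = c := by
    rw [hc]
    exact cardι C (fun v hv => Or.inr hv)
  refine ⟨⟨?_, ?_⟩, ⟨?_, ?_⟩, ?_⟩
  · rw [← hcardC]
    exact Sym.even_cy SC h3F fun i => (hcy i.1).2 i.2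
  · intro v hv
    refine ⟨fun hT => noOm v (Or.inr hv) hT ((memC v (Or.inr hv)).1 hv), fun hp1 => ?_⟩
    by_contra hcon
    exact ((placeC v hv).1 (by omega)).2 hp1
  · by_contra hm3
    obtain ⟨i, hi⟩ := SR.cube h3F (by rw [hcardR]; exact hm3)
    exact (hncy i.1).1 i.2 hi
  · intro v hvR
    have hvS : v ∈ R ∨ v ∈ C := Or.inl hvR
    have hpv := hSp v hvS
    refine ⟨?_, ?_, ?_⟩
    · by_contra hcon
      exact notC v hvR ((placeR v hvR).1 (by omega)).1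
    · intro h3f
      by_contra hcon
      exact notC v hvR ((placeR v hvR).2.1 (by omega) h3f)
    · intro h2f h3f hc'
      by_contra hcon
      obtain ⟨hX1, hY1, hZ1⟩ := (memS v hpv).1 hvS
      have k1 := (placeR v hvR).2.2 (by omega) (by
          have : Nat.Coprime (2 * 3) (rd p v) := Nat.Coprime.mul_left
            ((Nat.Prime.coprime_iff_not_dvd Nat.prime_two).2 h2f)
            ((Nat.Prime.coprime_iff_not_dvd Nat.prime_three).2 h3f)
          exact this)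
      rcases k1 with k2 | k1
      · rcases hc' with hW | hc'
        · rcases k2 with k2 | k2 | k2
          · exact wiefL (by omega) hp2 hW v.asIdeal v.isPrime hpv hs'.eq hX1 k2
          · exact wiefL (by omega) hp2 hW v.asIdeal v.isPrime hpv hs'.rot.eq hY1 k2
          · exact wiefL (by omega) hp2 hW v.asIdeal v.isPrime hpv hs'.rot.rot.eq hZ1 k2
        · obtain ⟨r1, r2, r3⟩ := res v hvS
          rcases k2 with k2 | k2 | k2
          · obtain ⟨r, hr⟩ := r1 k2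
            exact hc' r hr
          · obtain ⟨⟨r, hr⟩, -⟩ := r3 k2
            exact hc' r hr
          · obtain ⟨⟨r, hr⟩, -⟩ := r2 (by
              have := v.asIdeal.neg_mem k2
              rwa [neg_sub] at this)
            exact hc' r hr
      · exact notC v hvR k1
  · intro hmo
    obtain ⟨τ1, h1⟩ := SR.odd h2F (by rw [hcardR]; exact hmo)
    -- the two other coincidences
    obtain ⟨β, hβ⟩ := SR.all (Equiv.swap (1 : Fin 3) 2)
    obtain ⟨β', hβ'⟩ := SR.all (Equiv.swap (0 : Fin 3) 2)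
    have h2 : fam ψ ![X, Y, Z] (β τ1).1.1 0 = fam ψ ![X, Y, Z] (β τ1).1.1 2 := by
      obtain ⟨d, hd, hd'⟩ := hβ τ1
      have e0 := hd' 0
      have e2 := hd' 2
      have s0 : (Equiv.swap (1 : Fin 3) 2) 0 = 0 := by decide
      simp only [Function.comp_apply] at e0 e2
      rw [s0] at e0
      rw [Equiv.swap_apply_right] at e2
      rw [e0, e2, h1]
    have h3 : fam ψ ![X, Y, Z] (β' τ1).1.1 1 = fam ψ ![X, Y, Z] (β' τ1).1.1 2 := by
      obtain ⟨d, hd, hd'⟩ := hβ' τ1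
      have e1 := hd' 1
      have e2 := hd' 2
      have s1 : (Equiv.swap (0 : Fin 3) 2) 1 = 1 := by decide
      simp only [Function.comp_apply] at e1 e2
      rw [s1] at e1
      rw [Equiv.swap_apply_right] at e2
      rw [e1, e2, h1]
    have m1 : X - Y ∈ (pl τ1.1.1).asIdeal := by
      rw [← hplm, map_sub, map_sub]
      exact sub_eq_zero.2 h1
    have m2 : X - Z ∈ (pl (β τ1).1.1).asIdeal := by
      rw [← hplm, map_sub, map_sub]
      exact sub_eq_zero.2 h2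
    have m3 : Y - Z ∈ (pl (β' τ1).1.1).asIdeal := by
      rw [← hplm, map_sub, map_sub]
      exact sub_eq_zero.2 h3
    have dis : ∀ v : HeightOneSpectrum (𝓞 K), ((p : ℕ) : 𝓞 K) ∈ v.asIdeal →
        ∀ A B C : 𝓞 K, A ∉ v.asIdeal → A + B + C ∈ v.asIdeal → A - B ∈ v.asIdeal →
        A - C ∈ v.asIdeal → False := by
      intro v hpv A B C hA hABC hAB hAC
      have h4 : ((3 : ℕ) : 𝓞 K) * A ∈ v.asIdeal := by
        have e : ((3 : ℕ) : 𝓞 K) * A = (A + B + C) + (A - B) + (A - C) := by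
          push_cast
          ring
        rw [e]
        exact v.asIdeal.add_mem (v.asIdeal.add_mem hABC hAB) hAC
      rcases v.isPrime.mem_or_mem h4 with h5 | h5
      · exact natP v hpv 3 (by norm_num) (by omega) h5
      · exact hA h5
    have q1' : pl τ1.1.1 ∈ R := τ1.2
    have q2' : pl (β τ1).1.1 ∈ R := (β τ1).2
    have q3' : pl (β' τ1).1.1 ∈ R := (β' τ1).2
    have q1 : pl τ1.1.1 ∈ R ∨ pl τ1.1.1 ∈ C := Or.inl q1'
    have q2 : pl (β τ1).1.1 ∈ R ∨ pl (β τ1).1.1 ∈ C := Or.inl q2'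
    have q3 : pl (β' τ1).1.1 ∈ R ∨ pl (β' τ1).1.1 ∈ C := Or.inl q3'
    have p1 := hSp _ q1
    have p2 := hSp _ q2
    have p3 := hSp _ q3
    have sw : ∀ (v : HeightOneSpectrum (𝓞 K)) (A B : 𝓞 K), A - B ∈ v.asIdeal →
        B - A ∈ v.asIdeal := by
      intro v A B h
      have := v.asIdeal.neg_mem h
      rwa [neg_sub] at this
    refine ⟨?_, pl τ1.1.1, q1', pl (β τ1).1.1, q2', pl (β' τ1).1.1, q3', ?_, ?_, ?_, ?_⟩
    · by_contra hW
      exact wiefL (by omega) hp2 hW (pl τ1.1.1).asIdeal (pl τ1.1.1).isPrime p1 hs'.eq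
        ((memS _ p1).1 q1).1 m1
    · intro h12
      refine dis _ p1 X Y Z ((memS _ p1).1 q1).1 (lin _ p1) m1 ?_
      rw [h12]
      exact m2
    · intro h13
      refine dis _ p1 Y X Z ((memS _ p1).1 q1).2.1 ?_ (sw _ _ _ m1) ?_
      · have e : Y + X + Z = X + Y + Z := by ring
        rw [e]
        exact lin _ p1
      · rw [h13]
        exact m3
    · intro h23
      refine dis _ p2 Z X Y ((memS _ p2).1 q2).2.2 ?_ (sw _ _ _ m2) ?_
      · have e : Z + X + Y = X + Y + Z := by ring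
        rw [e]
        exact lin _ p2
      · rw [h23]
        exact sw _ _ _ m3
    · obtain ⟨r1, hr1⟩ := (res _ q1).1 m1
      obtain ⟨⟨r2, hr2⟩, s2, hs2⟩ := (res _ q2).2.1 m2
      obtain ⟨⟨r3, hr3⟩, s3, hs3⟩ := (res _ q3).2.2 m3
      exact ⟨r1, r2, r3, s2, s3, hr1, hr2, hr3, hs2, hs3⟩

end Pool.Agent.U549.LF
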