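import Pool.Agent.U549.LF.SymM

/-!
# Local degrees, places, scaling
-/

set_option autoImplicit false
set_option linter.unusedSectionVars false

namespace Pool.Agent.U549.LF

open NumberField IsDedekindDomain Polynomial Pool.Agent.Y546.WQ Pool.Agent.N840.FC

/-- the residue degree of `v` over `p` -/
noncomputable def rd (p : ℕ) {K : Type} [Field K] [NumberField K]
    (v : HeightOneSpectrum (𝓞 K)) : ℕ :=
  Ideal.inertiaDeg' (Ideal.span {(p : ℤ)}) v.asIdeal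

/-- the local degree at `v` over `p` -/
noncomputable def ld (p : ℕ) {K : Type} [Field K] [NumberField K]
    (v : HeightOneSpectrum (𝓞 K)) : ℕ :=
  Ideal.ramificationIdx' (Ideal.span {(p : ℤ)}) v.asIdeal * rd p v

section

variable {p : ℕ} [Fact p.Prime] {K N : Type} [Field K] [NumberField K] [Field N] [NumberField N]

theorem span_max : (Ideal.span {(p : ℤ)}).IsMaximal :=
  PrincipalIdealRing.isMaximal_of_irreducible
    (Nat.prime_iff_prime_int.1 (Fact.out : p.Prime)).irreducible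

theorem liesOver (P : Ideal (𝓞 K)) (hP : P.IsPrime) (hpP : ((p : ℕ) : 𝓞 K) ∈ P) :
    P.LiesOver (Ideal.span {(p : ℤ)}) := by
  have hm : (Ideal.span {(p : ℤ)}).IsMaximal := span_max
  refine ⟨hm.eq_of_le ?_ ?_⟩
  · exact (hP.comap (algebraMap ℤ (𝓞 K))).ne_top
  · rw [Ideal.span_singleton_le_iff_mem, Ideal.under_def, Ideal.mem_comap]
    simpa using hpP

theorem mem_pow_ram (P : Ideal (𝓞 K)) :
    ((p : ℕ) : 𝓞 K) ∈ P ^ Ideal.ramificationIdx' (Ideal.span {(p : ℤ)}) P := by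
  apply Ideal.le_pow_ramificationIdx' (p := Ideal.span {(p : ℤ)}) (P := P)
  have h1 : algebraMap ℤ (𝓞 K) (p : ℤ) ∈ Ideal.map (algebraMap ℤ (𝓞 K)) (Ideal.span {(p : ℤ)}) :=
    Ideal.mem_map_of_mem _ (Ideal.mem_span_singleton_self _)
  simpa using h1

theorem absNorm_rd (v : HeightOneSpectrum (𝓞 K)) (hv : ((p : ℕ) : 𝓞 K) ∈ v.asIdeal) :
    Ideal.absNorm v.asIdeal = p ^ rd p v := by
  have hl : v.asIdeal.LiesOver (Ideal.span {(p : ℤ)}) := liesOver v.asIdeal v.isPrime hv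
  exact Ideal.absNorm_eq_pow_inertiaDeg' v.asIdeal (Fact.out : p.Prime)

/-- the number of embeddings which induce a place is the local degree -/
theorem emb_card (hcard : Nat.card (K →+* N) = Module.finrank ℚ K)
    (hmp : Module.finrank ℚ K < p) (Q : Ideal (𝓞 N)) (hQ : Q.IsPrime)
    (hQp : ((p : ℕ) : 𝓞 N) ∈ Q) (v : HeightOneSpectrum (𝓞 K))
    (hv : ((p : ℕ) : 𝓞 K) ∈ v.asIdeal) : (emb Q v.asIdeal).card = ld p v := by
  classical
  have hpp : p.Prime := Fact.out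
  have hmax : (Ideal.span {(p : ℤ)}).IsMaximal := span_max
  have hbot : Ideal.span {(p : ℤ)} ≠ ⊥ := by
    rw [Ne, Ideal.span_singleton_eq_bot]
    exact_mod_cast hpp.ne_zero
  obtain ⟨T, hT⟩ : ∃ T : Finset (Ideal (𝓞 K)),
    T = IsDedekindDomain.primesOverFinset (Ideal.span {(p : ℤ)}) (𝓞 K) := ⟨_, rfl⟩
  have memT : ∀ P : Ideal (𝓞 K), P ∈ T ↔ P.IsPrime ∧ ((p : ℕ) : 𝓞 K) ∈ P := by
    intro P
    rw [hT, IsDedekindDomain.mem_primesOverFinset_iff hbot]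
    constructor
    · rintro ⟨h1, h2⟩
      refine ⟨h1, ?_⟩
      have h3 : (p : ℤ) ∈ P.under ℤ := by
        rw [← h2.over]
        exact Ideal.mem_span_singleton_self _
      rw [Ideal.under_def, Ideal.mem_comap] at h3
      simpa using h3
    · rintro ⟨h1, h2⟩
      exact ⟨h1, liesOver P h1 h2⟩
  have hne : ∀ P ∈ T, P ≠ ⊥ := by
    intro P hP h0
    have := ((memT P).1 hP).2
    rw [h0, Ideal.mem_bot, Nat.cast_eq_zero] at this
    exact hpp.ne_zero this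
  have hsum : ∑ P ∈ T, Ideal.ramificationIdx' (Ideal.span {(p : ℤ)}) P *
      Ideal.inertiaDeg' (Ideal.span {(p : ℤ)}) P = Module.finrank ℚ K := by
    rw [hT]
    exact Ideal.sum_ramification_inertia (𝓞 K) ℚ K hbot
  have hcnt : ∑ P ∈ T, (emb (K := K) Q P).card = Module.finrank ℚ K := by
    have h1 := Finset.card_eq_sum_card_fiberwise (s := (Finset.univ : Finset (K →+* N))) (t := T)
      (f := fun τ => Q.comap (RingOfIntegers.mapRingHom τ)) (by
        intro τ _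
        rw [Finset.mem_coe, memT]
        refine ⟨hQ.comap _, ?_⟩
        rw [Ideal.mem_comap, map_natCast]
        exact hQp)
    rw [Finset.card_univ, ← Nat.card_eq_fintype_card, hcard] at h1
    rw [h1]
    refine Finset.sum_congr rfl fun P _ => ?_
    congr 1
  have hle : ∀ P ∈ T, Ideal.ramificationIdx' (Ideal.span {(p : ℤ)}) P *
      Ideal.inertiaDeg' (Ideal.span {(p : ℤ)}) P ≤ (emb (K := K) Q P).card := by
    intro P hP
    have hP' := (memT P).1 hP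
    exact count_ge hcard hmp Q hQ hQp ⟨P, hP'.1, hne P hP⟩ _ _ (mem_pow_ram P)
      (absNorm_rd ⟨P, hP'.1, hne P hP⟩ hP'.2)
  have heq := (Finset.sum_eq_sum_iff_of_le hle).1 (hsum.trans hcnt.symm) v.asIdeal
    ((memT _).2 ⟨v.isPrime, hv⟩)
  exact heq.symm

variable {F : Type} [Field F]

theorem place_gen (hp5 : 5 ≤ p) (Q : Ideal (𝓞 N))
    (ψ : 𝓞 N →+* F) (hψ : ∀ w : 𝓞 N, ψ w = 0 ↔ w ∈ Q)
    (V : Fin 3 → 𝓞 K) {ι : Type} [Fintype ι] (em : ι → (K →+* N))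
    (S : Sym (fun i => fam ψ V (em i))) (v : HeightOneSpectrum (𝓞 K)) (f : ℕ)
    (hpv : ((p : ℕ) : 𝓞 K) ∈ v.asIdeal) (hf : Ideal.absNorm v.asIdeal = p ^ f)
    (hV : ∀ a, V a ∉ v.asIdeal) (hsum : V 0 + V 1 + V 2 ∈ v.asIdeal) (T : Finset ι)
    (hT : ∀ i ∈ T, Q.comap (RingOfIntegers.mapRingHom (em i)) = v.asIdeal) :
    (Fintype.card ι < 2 * T.card →
      V 0 ^ 2 + V 0 * V 1 + V 1 ^ 2 ∈ v.asIdeal ∧ p % 3 ≠ 1) ∧
    (Fintype.card ι < 3 * T.card → ¬ 3 ∣ f →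
      V 0 ^ 2 + V 0 * V 1 + V 1 ^ 2 ∈ v.asIdeal) ∧
    (Fintype.card ι < 6 * T.card → Nat.Coprime 6 f →
      (V 0 - V 1 ∈ v.asIdeal ∨ V 1 - V 2 ∈ v.asIdeal ∨ V 2 - V 0 ∈ v.asIdeal) ∨
      V 0 ^ 2 + V 0 * V 1 + V 1 ^ 2 ∈ v.asIdeal) := by
  classical
  have hpp : p.Prime := Fact.out
  have hvm : v.asIdeal.IsMaximal := v.isMaximal
  let _ : Field (𝓞 K ⧸ v.asIdeal) := Ideal.Quotient.field v.asIdeal
  have hfin : Finite (𝓞 K ⧸ v.asIdeal) := Ideal.finiteQuotientOfFreeOfNeBot v.asIdeal v.ne_bot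
  have hch : CharP (𝓞 K ⧸ v.asIdeal) p := charP_quot v.asIdeal v.isPrime p hpp hpv
  have hck : Nat.card (𝓞 K ⧸ v.asIdeal) = p ^ f := by
    rw [← hf]
    rfl
  have h3 : (3 : 𝓞 K ⧸ v.asIdeal) ≠ 0 := by
    have h : ((3 : ℕ) : 𝓞 K ⧸ v.asIdeal) ≠ 0 := by
      rw [Ne, CharP.cast_eq_zero_iff (𝓞 K ⧸ v.asIdeal) p]
      intro hd
      have := Nat.le_of_dvd (by norm_num) hd
      omega
    exact_mod_cast h
  set W : Fin 3 → 𝓞 K ⧸ v.asIdeal := fun a => Ideal.Quotient.mk v.asIdeal (V a) with hW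
  have W0 : ∀ a, W a ≠ 0 := fun a h => hV a (Ideal.Quotient.eq_zero_iff_mem.1 h)
  have sW : W 0 + W 1 + W 2 = 0 := by
    simp only [hW]
    rw [← map_add, ← map_add]
    exact Ideal.Quotient.eq_zero_iff_mem.2 hsum
  -- the embeddings of the residue field
  have hker : ∀ i ∈ T, ∀ a ∈ v.asIdeal,
      (ψ.comp (RingOfIntegers.mapRingHom (em i) : 𝓞 K →+* 𝓞 N)) a = 0 := by
    intro i hi a ha
    rw [← hT i hi] at ha
    exact (hψ _).2 ha
  have conj : ∀ i ∈ T, ∀ j ∈ T, ∀ π : Equiv.Perm (Fin 3),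
      Pr (fam ψ V (em j)) (fam ψ V (em i) ∘ π) →
      ∃ l : ℕ, Pr (iterateFrobenius (𝓞 K ⧸ v.asIdeal) p l ∘ W) (W ∘ π) := by
    intro i hi j hj π h
    exact conj_triple (Ideal.Quotient.lift v.asIdeal _ (hker i hi))
      (Ideal.Quotient.lift v.asIdeal _ (hker j hj)) W0 sW π h
  have omega_mem : W 0 ^ 2 + W 0 * W 1 + W 1 ^ 2 = 0 →
      V 0 ^ 2 + V 0 * V 1 + V 1 ^ 2 ∈ v.asIdeal := by
    intro h
    rw [← Ideal.Quotient.eq_zero_iff_mem]
    simp only [map_add, map_mul, map_pow]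
    exact h
  refine ⟨fun hm => ?_, fun hm h3f => ?_, fun hm h6 => ?_⟩
  · have h := Pr.all (p := p) W0 sW hp5 (fun π => by
      obtain ⟨β, hβ⟩ := S.all π
      obtain ⟨i, hi, hβi⟩ := meet_two T hm β
      exact conj i hi (β i) hβi π (hβ i))
    exact ⟨omega_mem h.1, h.2⟩
  · choose β hβ using fun a : Fin 3 =>
      S.all ((Equiv.swap (0 : Fin 3) 1 * Equiv.swap 1 2) ^ (a : ℕ))
    obtain ⟨a, b, hab, i, hi, j, hj, hij⟩ := meet_many T β (by
      rw [Fintype.card_fin]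
      exact hm)
    obtain ⟨r1, r2⟩ := rot_pow a b hab
    have h1 := (hβ a i).symm
    rw [hij] at h1
    have h2 := ((h1.trans (hβ b j)).comp
      ((Equiv.swap (0 : Fin 3) 1 * Equiv.swap 1 2) ^ (b : ℕ))⁻¹).symm
    rw [comp_comp_inv, comp_mul] at h2
    obtain ⟨l, hl⟩ := conj i hi j hj
      ((Equiv.swap (0 : Fin 3) 1 * Equiv.swap 1 2) ^ (a : ℕ) *
        ((Equiv.swap (0 : Fin 3) 1 * Equiv.swap 1 2) ^ (b : ℕ))⁻¹) h2
    have h4 := hl.descend hck W0 sW 3 r2 ((Nat.Prime.coprime_iff_not_dvd Nat.prime_three).2 h3f)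
    exact omega_mem (Pr.fixed3 h3 W0 sW r1 r2 h4)
  · choose β hβ using fun a : Equiv.Perm (Fin 3) => S.all a
    obtain ⟨a, b, hab, i, hi, j, hj, hij⟩ := meet_many T β (by
      rw [Fintype.card_perm, Fintype.card_fin]
      exact hm)
    have h1 := (hβ a i).symm
    rw [hij] at h1
    have h2 := ((h1.trans (hβ b j)).comp b⁻¹).symm
    rw [comp_comp_inv] at h2
    have hab' : a * b⁻¹ ≠ 1 := fun h => hab (mul_inv_eq_one.1 h)
    obtain ⟨l, hl⟩ := conj i hi j hj (a * b⁻¹) h2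
    have h4 := hl.descend hck W0 sW 6 (perm_six _) h6
    have key : ∀ c d : Fin 3, W c = W d → V c - V d ∈ v.asIdeal := by
      intro c d h
      rw [← Ideal.Quotient.eq_zero_iff_mem, map_sub]
      exact sub_eq_zero.2 h
    rcases Pr.fixed h3 W0 sW hab' h4 with (h | h | h) | h
    · exact Or.inl (Or.inl (key _ _ h))
    · exact Or.inl (Or.inr (Or.inl (key _ _ h)))
    · exact Or.inl (Or.inr (Or.inr (key _ _ h)))
    · exact Or.inr (omega_mem h)

/-- a solution of the type `(1, 1, -2)` at a place above `p` -/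
theorem wiefL (hmp : Module.finrank ℚ K < p) (hp2 : p ≠ 2) (hW : ¬ p ^ 2 ∣ 2 ^ (p - 1) - 1)
    (P : Ideal (𝓞 K)) (hP : P.IsPrime) (hpP : ((p : ℕ) : 𝓞 K) ∈ P)
    {X Y Z : 𝓞 K} (heq : X ^ p + Y ^ p + Z ^ p = 0) (hX : X ∉ P) (hXY : X - Y ∈ P) :
    False := by
  have hpp : p.Prime := Fact.out
  have hodd : Odd p := hpp.odd_of_ne_two hp2
  obtain ⟨n, hnm, hn1, hn2⟩ := exists_ram P hP hpP
  have h1 := lin_p hpp P hP hpP heq
  have h2 : Z - (-2 * X) ∈ P := by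
    have : Z - (-2 * X) = (X + Y + Z) + (X - Y) := by ring
    rw [this]
    exact P.add_mem h1 hXY
  have h3 := pow_sub_pow_mem hpp P hn1 (by omega) hXY
  have h4 := pow_sub_pow_mem hpp P hn1 (by omega) h2
  have h5 : X ^ p * (2 ^ p - 2) ∈ P ^ (n + 1) := by
    have e : X ^ p * (2 ^ p - 2) = (Z ^ p - (-2 * X) ^ p) - (X ^ p - Y ^ p) := by
      have e1 : (-2 * X) ^ p = -(2 ^ p * X ^ p) := by
        rw [neg_mul, hodd.neg_pow, mul_pow]
      rw [e1]
      linear_combination -heq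
    rw [e]
    exact (P ^ (n + 1)).sub_mem h4 h3
  have h6 : (2 : 𝓞 K) ^ p - 2 ∈ P ^ (n + 1) := by
    rcases Ideal.IsPrime.mul_mem_pow P h5 with h | h
    · exact absurd (hP.mem_of_pow_mem p h) hX
    · exact h
  -- the Fermat quotient
  have h7 : p ∣ 2 ^ (p - 1) - 1 := by
    have h8 : ((2 ^ (p - 1) - 1 : ℕ) : ZMod p) = 0 := by
      rw [Nat.cast_sub Nat.one_le_two_pow]
      push_cast
      rw [ZMod.pow_card_sub_one_eq_one, sub_self]
      have h : ((2 : ℕ) : ZMod p) ≠ 0 := by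
        rw [Ne, ZMod.natCast_eq_zero_iff]
        intro hd
        exact hp2 ((Nat.prime_dvd_prime_iff_eq hpp Nat.prime_two).1 hd)
      exact_mod_cast h
    exact (ZMod.natCast_eq_zero_iff _ _).1 h8
  obtain ⟨v, hv⟩ := h7
  have h8 : ((2 * v : ℕ) : 𝓞 K) * (p : 𝓞 K) ∈ P ^ (n + 1) := by
    have e : ((2 * v : ℕ) : 𝓞 K) * (p : 𝓞 K) = 2 ^ p - 2 := by
      have e1 : 2 * v * p = 2 ^ p - 2 := by
        have e2 : 2 ^ p = 2 * 2 ^ (p - 1) := by
          rw [← pow_succ']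
          congr 1
          have := hpp.pos
          omega
        rw [e2, mul_assoc, mul_comm v p, ← hv, Nat.mul_sub]
      have e3 := congrArg (fun w : ℕ => (w : 𝓞 K)) e1
      have e4 : 2 ≤ 2 ^ p := by
        calc 2 = 2 ^ 1 := by norm_num
          _ ≤ 2 ^ p := Nat.pow_le_pow_right (by norm_num) hpp.one_lt.le
      simp only [Nat.cast_mul] at e3
      rw [Nat.cast_sub e4] at e3
      push_cast at e3 ⊢
      exact e3
    rw [e]
    exact h6
  rcases Ideal.IsPrime.mul_mem_pow P h8 with h | h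
  · have h9 := int_notMem P hP p hpp hpP (2 * v : ℕ) (by
      intro hd
      have hd' : p ∣ 2 * v := by exact_mod_cast hd
      rcases (Nat.Prime.dvd_mul hpp).1 hd' with h' | h'
      · exact hp2 ((Nat.prime_dvd_prime_iff_eq hpp Nat.prime_two).1 h')
      · apply hW
        rw [hv, pow_two]
        exact Nat.mul_dvd_mul_left p h')
    exact h9 (by exact_mod_cast h)
  · exact hn2 h

end

/-- scaling a triple of elements at the primes above `p` -/
theorem prepB {K : Type} [Field K] [NumberField K] {p : ℕ} (hp : p.Prime) {x y z : K}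
    (hx : x ≠ 0) (hy : y ≠ 0) (hz : z ≠ 0) :
    ∃ a : K, a ≠ 0 ∧ ∃ X Y Z : 𝓞 K, algebraMap (𝓞 K) K X = a * x ∧
      algebraMap (𝓞 K) K Y = a * y ∧ algebraMap (𝓞 K) K Z = a * z ∧ X ≠ 0 ∧ Y ≠ 0 ∧ Z ≠ 0 ∧
      (∀ P : Ideal (𝓞 K), P.IsPrime → ((p : ℕ) : 𝓞 K) ∈ P → ¬ (X ∈ P ∧ Y ∈ P ∧ Z ∈ P)) := by
  have hp0 : p ≠ 0 := hp.ne_zero
  obtain ⟨T, hT⟩ := finite_primes (K := K) p hp0
  obtain ⟨a, X, Y, Z, hXa, hYa, hZa, hn⟩ := scaleT (y := y) (z := z) hx T
  have hne : ∀ (P : Ideal (𝓞 K)), P.IsPrime → ((p : ℕ) : 𝓞 K) ∈ P →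
      ∃ h0 : P ≠ ⊥, ∀ hP : P.IsPrime, (⟨P, hP, h0⟩ : HeightOneSpectrum (𝓞 K)) ∈ T := by
    intro P hP hm
    have h0 : P ≠ ⊥ := by
      rintro rfl
      rw [Ideal.mem_bot] at hm
      have : (p : ℕ) = 0 := by exact_mod_cast hm
      omega
    exact ⟨h0, fun hP' => hT _ hm⟩
  -- there is a prime above p
  obtain ⟨M, hM, hMp⟩ := exists_above (K := K) p hp
  have ha : a ≠ 0 := by
    rintro rfl
    rw [zero_mul] at hXa hYa hZa
    have h1 : X = 0 := RingOfIntegers.coe_injective (by rw [map_zero]; exact hXa)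
    have h2 : Y = 0 := RingOfIntegers.coe_injective (by rw [map_zero]; exact hYa)
    have h3 : Z = 0 := RingOfIntegers.coe_injective (by rw [map_zero]; exact hZa)
    obtain ⟨h0, h4⟩ := hne M hM hMp
    apply hn _ (h4 hM)
    rw [h1, h2, h3]
    exact ⟨zero_mem _, zero_mem _, zero_mem _⟩
  have hX0 : X ≠ 0 := by
    rintro rfl
    rw [map_zero] at hXa
    exact mul_ne_zero ha hx hXa.symm
  have hY0 : Y ≠ 0 := by
    rintro rfl
    rw [map_zero] at hYa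
    exact mul_ne_zero ha hy hYa.symm
  have hZ0 : Z ≠ 0 := by
    rintro rfl
    rw [map_zero] at hZa
    exact mul_ne_zero ha hz hZa.symm
  refine ⟨a, ha, X, Y, Z, hXa, hYa, hZa, hX0, hY0, hZ0, ?_⟩
  intro P hP hpP
  obtain ⟨h0, h4⟩ := hne P hP hpP
  exact hn _ (h4 hP)

end Pool.Agent.U549.LF
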