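import Pool.Agent.Y510.WQ.POLBA
import Pool.Agent.Y275.WQ.COREA
import Pool.Agent.Y590.WQ.POLE

/-!
# Palindromic polynomials from relations of lower precision
-/

set_option autoImplicit false

namespace Pool.Agent.U549.LF

open Polynomial Pool.Agent.Y546.WQ Pool.Agent.Y587.WQ

section field

variable {F : Type*} [Field F]

theorem reflect_sub' (M : ℕ) (f g : F[X]) : (f - g).reflect M = f.reflect M - g.reflect M := by
  ext k
  rw [coeff_sub, coeff_reflect, coeff_reflect, coeff_reflect, coeff_sub]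

theorem reflect_shift {m t : ℕ} {g : F[X]} (hg : g.natDegree ≤ m) :
    g.reflect (t + m) = X ^ t * g.reflect m := by
  ext k
  rw [coeff_X_pow_mul']
  split_ifs with h
  · rw [coeff_reflect, coeff_reflect]
    rcases le_or_gt k (t + m) with h1 | h1
    · rw [revAt_le h1, revAt_le (by omega)]
      congr 1
      omega
    · rw [revAt_eq_self_of_lt h1, revAt_eq_self_of_lt (by omega),
        coeff_eq_zero_of_natDegree_lt (by omega), coeff_eq_zero_of_natDegree_lt (by omega)]
  · rw [coeff_reflect, revAt_le (by omega)]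
    exact coeff_eq_zero_of_natDegree_lt (by omega)

theorem natDegree_one_pow (n : ℕ) : ((X - 1 : F[X]) ^ n).natDegree = n := by
  rw [natDegree_pow, ← C_1, natDegree_X_sub_C, mul_one]

theorem dvd_reflect (q : ℕ) : ∀ {M : ℕ} {h : F[X]}, (X - 1) ^ q ∣ h → h.natDegree ≤ M →
    (X - 1) ^ q ∣ h.reflect M := by
  induction q with
  | zero => intro M h _ _; rw [pow_zero]; exact one_dvd _
  | succ q ih =>
    intro M h hd hM
    obtain ⟨H, rfl⟩ := hd
    by_cases hH : H = 0
    · subst hH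
      rw [mul_zero, reflect_zero]
      exact dvd_zero _
    have hX : (X - 1 : F[X]) ≠ 0 := by
      rw [← C_1]
      exact X_sub_C_ne_zero 1
    have hdeg : ((X - 1 : F[X]) ^ (q + 1) * H).natDegree = (q + 1) + H.natDegree := by
      rw [natDegree_mul (pow_ne_zero _ hX) hH, natDegree_one_pow]
    rw [hdeg] at hM
    obtain ⟨M', rfl⟩ : ∃ M', M = 1 + M' := ⟨M - 1, by omega⟩
    have e : (X - 1 : F[X]) ^ (q + 1) * H = (X - 1) * ((X - 1) ^ q * H) := by ring
    have hd1 : (X - 1 : F[X]).natDegree ≤ 1 := by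
      rw [← C_1, natDegree_X_sub_C]
    have hd2 : ((X - 1 : F[X]) ^ q * H).natDegree ≤ M' := by
      rw [natDegree_mul (pow_ne_zero _ hX) hH, natDegree_one_pow]
      omega
    rw [e, reflect_mul _ _ hd1 hd2]
    have e1 : (X - 1 : F[X]).reflect 1 = -(X - 1) := by
      rw [reflect_sub']
      have h1 : (X : F[X]).reflect 1 = 1 := by
        have h3 := reflect_monomial (R := F) 1 1
        rw [pow_one, revAt_le le_rfl] at h3
        simp
      have h2 : (1 : F[X]).reflect 1 = X := by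
        have h3 := reflect_C_mul_X_pow (R := F) 1 0 (c := 1)
        rw [C_1, one_mul, pow_zero, one_mul] at h3
        rw [h3, revAt_le (by omega)]
        simp
      rw [h1, h2]
      ring
    rw [e1, pow_succ', neg_mul]
    exact (mul_dvd_mul_left (X - 1) (ih (dvd_mul_right _ _) hd2)).neg_right

/-- the leading term at `1` of `X ^ m g - X ^ s g*` is that of a polynomial which is congruent to `g` -/
theorem transfer {m M q s l : ℕ} {g g2 W : F[X]} (hg : g.natDegree ≤ m) (hg2 : g2.natDegree ≤ M)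
    (hmM : m ≤ M) (hd : (X - 1) ^ q ∣ g2 - g) (hlq : l < q)
    (h : X ^ m * g - X ^ s * g.reflect m = (X - 1) ^ l * W) (hW : W.eval 1 ≠ 0) :
    ∃ W' : F[X], X ^ M * g2 - X ^ s * g2.reflect M = (X - 1) ^ l * W' ∧ W'.eval 1 ≠ 0 := by
  obtain ⟨t, rfl⟩ : ∃ t, M = t + m := ⟨M - m, by omega⟩
  have hgM : (g2 - g).natDegree ≤ t + m :=
    (natDegree_sub_le_of_le hg2 (hg.trans (by omega))).trans (max_self _).le
  obtain ⟨A, hA⟩ := hd
  obtain ⟨B, hB⟩ := dvd_reflect q ⟨A, hA⟩ hgM
  rw [reflect_sub'] at hB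
  obtain ⟨u, rfl⟩ : ∃ u, q = l + (u + 1) := ⟨q - l - 1, by omega⟩
  refine ⟨X ^ t * W + (X - 1) ^ (u + 1) * (X ^ (t + m) * A - X ^ s * B), ?_, ?_⟩
  · rw [reflect_shift hg] at hB
    have e1 : g2 = g + (X - 1) ^ (l + (u + 1)) * A := by rw [← hA]; ring
    have e2 : g2.reflect (t + m) = X ^ t * g.reflect m + (X - 1) ^ (l + (u + 1)) * B := by
      rw [← hB]; ring
    rw [e2]
    rw [e1]
    have e3 : X ^ (t + m) * g - X ^ s * (X ^ t * g.reflect m) = X ^ t * ((X - 1) ^ l * W) := by
      rw [← h]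
      ring
    have e4 : (X ^ (t + m) * (g + (X - 1) ^ (l + (u + 1)) * A) -
        X ^ s * (X ^ t * g.reflect m + (X - 1) ^ (l + (u + 1)) * B) : F[X]) =
        (X ^ (t + m) * g - X ^ s * (X ^ t * g.reflect m)) +
          (X - 1) ^ (l + (u + 1)) * (X ^ (t + m) * A - X ^ s * B) := by ring
    rw [e4, e3]
    ring
  · simp only [eval_add, eval_mul, eval_pow, eval_X, one_pow, one_mul, eval_sub, eval_one, sub_self]
    rw [zero_pow (Nat.succ_ne_zero u), zero_mul, add_zero]
    exact hW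

end field

section

variable {p : ℕ} [Fact p.Prime]

/-- the relations hold for a polynomial which is congruent to `g` modulo `(X - 1) ^ q` -/
def RelQ (p : ℕ) [Fact p.Prime] (q : ℕ) (g : (ZMod p)[X]) : Prop :=
  ∃ g2 : (ZMod p)[X], (X - 1) ^ q ∣ g2 - g ∧ Rel p g2

/-- the argument for palindromic polynomials -/
theorem pal_core {m : ℕ} {g : (ZMod p)[X]} (hpm : 2 * m + 3 ≤ p) (hg : g.natDegree ≤ m)
    (h0 : g.coeff 0 ≠ 0) (hm : g.coeff m ≠ 0) (h1 : g.eval 1 ≠ 0)
    (H : ∀ (s l : ℕ) (W : (ZMod p)[X]), X ^ m * g - X ^ s * g.reflect m = (X - 1) ^ l * W →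
      W.eval 1 ≠ 0 → 2 ≤ l → l ≤ 2 * m + 1 → False) : g.reflect m = g := by
  have hfr : (g.reflect m).natDegree ≤ m := by
    refine natDegree_reflect_le.trans ?_
    exact max_le le_rfl hg
  have hr1 : (g.reflect m).eval 1 = g.eval 1 := eval_reflect_one hg
  obtain ⟨s, hsp, hs⟩ : ∃ s : ℕ, s < p ∧ (s : ZMod p) * g.eval 1 =
      m * g.eval 1 + (derivative g).eval 1 - (derivative (g.reflect m)).eval 1 := by
    refine ⟨((m * g.eval 1 + (derivative g).eval 1 -
      (derivative (g.reflect m)).eval 1) / g.eval 1).val, ZMod.val_lt _, ?_⟩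
    rw [ZMod.natCast_zmod_val, div_mul_cancel₀ _ h1]
  obtain ⟨G, hG⟩ : ∃ G : (ZMod p)[X], G = X ^ m * g - X ^ s * g.reflect m := ⟨_, rfl⟩
  have hG0 : G.eval 1 = 0 := by
    rw [hG]
    simp only [eval_sub, eval_mul, eval_pow, eval_X, one_pow, one_mul]
    rw [hr1, sub_self]
  have hG1 : (derivative G).eval 1 = 0 := by
    have e := congrArg (fun q => q.eval (1 : ZMod p)) (X_mul_derivative m g)
    have e' := congrArg (fun q => q.eval (1 : ZMod p)) (X_mul_derivative s (g.reflect m))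
    simp only [eval_mul, eval_X, one_mul, eval_pow, one_pow, eval_add, eval_C] at e e'
    rw [hG, derivative_sub, eval_sub, e, e', hr1, hs]
    ring
  have hG2 := sq_dvd hG0 hG1
  have key : (X - 1 : (ZMod p)[X]) ^ (2 * m + 2) ∣ G := by
    by_cases hGz : G = 0
    · rw [hGz]
      exact dvd_zero _
    · obtain ⟨W, hW, hWn⟩ := exists_eq_pow_rootMultiplicity_mul_and_not_dvd G hGz 1
      obtain ⟨l, hl⟩ : ∃ l, l = G.rootMultiplicity 1 := ⟨_, rfl⟩
      rw [← hl, C_1] at hW
      rw [C_1] at hWn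
      have hl2 : 2 ≤ l := by
        rw [hl, le_rootMultiplicity_iff hGz, C_1]
        exact hG2
      have hW1 : W.eval 1 ≠ 0 := by
        intro h
        apply hWn
        have := dvd_iff_isRoot.2 h
        rwa [C_1] at this
      by_cases hlm : l ≤ 2 * m + 1
      · exact absurd (H s l W (by rw [← hG]; exact hW) hW1 hl2 hlm) not_false
      · rw [hW]
        exact (pow_dvd_pow _ (by omega)).mul_right _
  rw [hG] at key
  have hms := wronskian hg h0 hm key
  have hsm : s = m := by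
    have h2 := (ZMod.natCast_eq_natCast_iff' m s p).1 hms
    rw [Nat.mod_eq_of_lt (by omega), Nat.mod_eq_of_lt hsp] at h2
    exact h2.symm
  rw [hsm, ← mul_sub] at key
  have h3 := (cop (F := ZMod p) (2 * m + 2) m).dvd_of_dvd_mul_left key
  have h4 : (g - g.reflect m).natDegree < ((X - 1 : (ZMod p)[X]) ^ (2 * m + 2)).natDegree := by
    rw [natDegree_X_sub_one_pow]
    have h5 := natDegree_sub_le g (g.reflect m)
    have h6 := max_le hg hfr
    omega
  have h5 := eq_zero_of_dvd_of_natDegree_lt h3 h4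
  exact (sub_eq_zero.1 h5).symm

/-- a polynomial which satisfies the relations up to `(X - 1) ^ q` is palindromic if the small
indices are regular -/
theorem pal_mix {m q : ℕ} {g : (ZMod p)[X]} (hpm : 2 * m + 3 ≤ p) (hq : 2 * m + 2 ≤ q)
    (hg : g.natDegree ≤ m)
    (h0 : g.coeff 0 ≠ 0) (hm : g.coeff m ≠ 0) (h1 : g.eval 1 ≠ 0) (hR : RelQ p q g)
    (hreg : ∀ j, Odd j → 3 ≤ j → j ≤ 2 * m + 1 → Reg p j) : g.reflect m = g := by
  obtain ⟨g2, hd, hrel⟩ := hR
  have hp2 : p ≠ 2 := by omega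
  refine pal_core hpm hg h0 hm h1 fun s l W hW hW1 hl hlm => ?_
  obtain ⟨W', hW', hW1'⟩ := transfer (M := max m g2.natDegree) hg (le_max_right _ _)
    (le_max_left _ _) hd (by omega) hW hW1
  have h21 : g2.eval 1 ≠ 0 := by
    obtain ⟨A, hA⟩ := hd
    have h2 := congrArg (eval 1) hA
    simp only [eval_sub, eval_mul, eval_pow, eval_X, eval_one, sub_self] at h2
    rw [zero_pow (by omega), zero_mul, sub_eq_zero] at h2
    rw [h2]
    exact h1
  have hall : ∀ a : ℕ, 0 < a → a + 2 ≤ p → Odd l ∧ hsa p a l = 0 := by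
    intro a ha ha'
    obtain ⟨i, r, hr, hdiv⟩ := hrel a ha ha'
    exact Y275.WQ.mainCOREA p hp2 a ha ha' _ s i l g2 W' r (le_max_right _ _) h21 hr hdiv hW' hW1' hl
      (by omega)
  have hodd := (hall 1 (by omega) (by omega)).1
  have h3 : 3 ≤ l := by
    obtain ⟨t, ht⟩ := hodd
    omega
  obtain ⟨a, ha, ha', hne⟩ := hreg l hodd h3 hlm
  exact hne (hall a ha ha').2

end

end Pool.Agent.U549.LF
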