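import Pool.Agent.U549.LF.Pol
import Pool.Agent.Y780.WQ.POLE1
import Pool.Agent.Y286.WQ.POLE2

/-!
# Palindromic polynomials from relations of lower precision: few irregular indices
-/

set_option autoImplicit false

namespace Pool.Agent.U549.LF

open Polynomial Pool.Agent.Y546.WQ Pool.Agent.Y587.WQ

section

variable {p : ℕ} [Fact p.Prime]

theorem comp_congr {r : ℕ} {A B : (ZMod p)[X]} (h : (X - 1) ^ r ∣ A - B) (k : ℕ) :
    (X - 1) ^ r ∣ A.comp (X ^ k) - B.comp (X ^ k) := by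
  obtain ⟨D, hD⟩ := h
  have h1 : (X - 1 : (ZMod p)[X]) ∣ X ^ k - 1 := by
    have := sub_dvd_pow_sub_pow (X : (ZMod p)[X]) 1 k
    rwa [one_pow] at this
  have e := congrArg (fun q => q.comp (X ^ k)) hD
  simp only [sub_comp, mul_comp, pow_comp, X_comp, one_comp] at e
  rw [e]
  exact (pow_dvd_pow_of_dvd h1 r).mul_right _

theorem lin_congr {r n : ℕ} {W1 W2 V1 V2 : (ZMod p)[X]} (hW : (X - 1) ^ r ∣ W1 - W2)
    (hV : (X - 1) ^ r ∣ V1 - V2) (b : ℕ → ZMod p) (d : ZMod p) :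
    (X - 1) ^ r ∣ Lin n W1 V1 b d - Lin n W2 V2 b d := by
  have key : ∀ {A B : (ZMod p)[X]}, (X - 1) ^ r ∣ A - B ↔
      Ideal.Quotient.mk (Ideal.span {(X - 1 : (ZMod p)[X]) ^ r}) A = Ideal.Quotient.mk _ B := by
    intro A B
    rw [Ideal.Quotient.eq, Ideal.mem_span_singleton]
  have hW' := fun k => key.1 (comp_congr hW k)
  have hV' := fun k => key.1 (comp_congr hV k)
  rw [key]
  unfold Lin
  simp only [map_sub, map_sum, map_mul, map_prod, hW', hV']

theorem lin_scale (n t : ℕ) (W V : (ZMod p)[X]) (b : ℕ → ZMod p) (d : ZMod p) :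
    Lin n (X ^ t * (W - C (t : ZMod p) * V)) (X ^ t * V) b d =
      X ^ (∑ k ∈ Finset.Icc 1 n, k * t) *
        Lin n W V b (d + t * ∑ i ∈ Finset.Icc 1 n, b i) := by
  have c1 : ∀ k : ℕ, (X ^ t * V).comp (X ^ k) = (X ^ k) ^ t * V.comp (X ^ k) := fun k => by
    rw [mul_comp, pow_comp, X_comp]
  have c2 : ∀ k : ℕ, (X ^ t * (W - C (t : ZMod p) * V)).comp (X ^ k) =
      (X ^ k) ^ t * (W.comp (X ^ k) - C (t : ZMod p) * V.comp (X ^ k)) := fun k => by
    rw [mul_comp, pow_comp, X_comp, sub_comp, mul_comp, C_comp]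
  obtain ⟨Pw, hPw⟩ : ∃ Pw : (ZMod p)[X], Pw = ∏ k ∈ Finset.Icc 1 n, (X ^ k) ^ t := ⟨_, rfl⟩
  obtain ⟨Pv, hPv⟩ : ∃ Pv : (ZMod p)[X], Pv = ∏ k ∈ Finset.Icc 1 n, V.comp (X ^ k) := ⟨_, rfl⟩
  have c3 : (X : (ZMod p)[X]) ^ (∑ k ∈ Finset.Icc 1 n, k * t) = Pw := by
    rw [← Finset.prod_pow_eq_pow_sum, hPw]
    exact Finset.prod_congr rfl fun k _ => by rw [← pow_mul]
  rw [c3]
  unfold Lin
  simp only [c1, c2, Finset.prod_mul_distrib]
  have key : ∀ i ∈ Finset.Icc 1 n, C (b i) * ((X ^ i) ^ t *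
      (W.comp (X ^ i) - C (t : ZMod p) * V.comp (X ^ i))) *
      ((∏ k ∈ (Finset.Icc 1 n).erase i, (X ^ k) ^ t) *
        ∏ k ∈ (Finset.Icc 1 n).erase i, V.comp (X ^ k)) =
      Pw * (C (b i) * W.comp (X ^ i) *
        ∏ k ∈ (Finset.Icc 1 n).erase i, V.comp (X ^ k)) - C (b i) * (Pw * C (t : ZMod p) * Pv) := by
    intro i hi
    have e1 := Finset.mul_prod_erase (Finset.Icc 1 n) (fun k => ((X : (ZMod p)[X]) ^ k) ^ t) hi
    have e2 := Finset.mul_prod_erase (Finset.Icc 1 n) (fun k => V.comp (X ^ k)) hi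
    rw [hPw, hPv, ← e1, ← e2]
    ring
  rw [Finset.sum_congr rfl key, Finset.sum_sub_distrib, ← Finset.mul_sum, ← Finset.sum_mul,
    ← hPw, ← hPv]
  rw [C_add, C_mul, map_sum]
  ring

/-- a polynomial which satisfies the relations up to `(X - 1) ^ q` is palindromic if there are few
irregular indices -/
theorem pal_pole {m q : ℕ} {g : (ZMod p)[X]} (J : Finset ℕ) (hm0 : 0 < m)
    (hq : m * ((J.card + 1) * (J.card + 2)) + 2 ≤ q) (hqp : q + 1 ≤ p)
    (hg : g.natDegree ≤ m)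
    (h0 : g.coeff 0 ≠ 0) (hm : g.coeff m ≠ 0) (he : g.eval 1 ≠ 0) (hR : RelQ p q g)
    (hJ : ∀ j, Odd j → 3 ≤ j → j + 2 ≤ p → j ∉ J → Reg p j) : g.reflect m = g := by
  obtain ⟨g2, hd, hrel⟩ := hR
  set n := J.card + 1 with hn
  have hn1 : 1 ≤ n := by omega
  have hmn : 1 * (1 * 2) ≤ m * (n * (n + 1)) :=
    Nat.mul_le_mul hm0 (Nat.mul_le_mul hn1 (by omega))
  have hnle : n ≤ m * (n * (n + 1)) := by
    calc n = 1 * (n * 1) := by ring
      _ ≤ m * (n * (n + 1)) := Nat.mul_le_mul hm0 (Nat.mul_le_mul le_rfl (by omega))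
  have hmle : m ≤ m * (n * (n + 1)) := by
    calc m = m * (1 * 1) := by ring
      _ ≤ m * (n * (n + 1)) := Nat.mul_le_mul le_rfl (Nat.mul_le_mul hn1 (by omega))
  have hq' : m * (n * (n + 1)) + 2 ≤ q := hq
  obtain ⟨u, hu⟩ : ∃ u, q = u + 1 := ⟨q - 1, by omega⟩
  obtain ⟨t, ht⟩ : ∃ t, max m g2.natDegree = t + m := ⟨max m g2.natDegree - m, by omega⟩
  have hg2 : g2.natDegree ≤ t + m := by rw [← ht]; exact le_max_right _ _
  have h21 : g2.eval 1 ≠ 0 := by
    obtain ⟨A, hA⟩ := hd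
    have h2 := congrArg (eval 1) hA
    simp only [eval_sub, eval_mul, eval_pow, eval_X, eval_one, sub_self] at h2
    rw [zero_pow (by omega), zero_mul, sub_eq_zero] at h2
    rw [h2]
    exact he
  obtain ⟨b, d, hb, hdvd⟩ := Y780.WQ.mainPOLE1 p (t + m) g2 J (by omega) hg2 h21 hrel hJ (by omega)
  -- congruences
  have hgM : (g2 - g).natDegree ≤ t + m :=
    (natDegree_sub_le_of_le hg2 (hg.trans (by omega))).trans (max_self _).le
  obtain ⟨A, hA⟩ := hd
  obtain ⟨B, hB⟩ := dvd_reflect q ⟨A, hA⟩ hgM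
  rw [reflect_sub', reflect_shift hg] at hB
  rw [hu] at hA hB
  have e1 : g2 = g + (X - 1) ^ (u + 1) * A := by rw [← hA]; ring
  have e2 : g2.reflect (t + m) = X ^ t * g.reflect m + (X - 1) ^ (u + 1) * B := by
    rw [← hB]; ring
  have dpow : ∀ D : (ZMod p)[X], ∃ D' : (ZMod p)[X], DD ((X - 1) ^ (u + 1) * D) =
      (X - 1) ^ u * D' := by
    intro D
    refine ⟨X * (C ((u + 1 : ℕ) : ZMod p) * D + (X - 1) * derivative D), ?_⟩
    unfold DD
    rw [derivative_mul, derivative_pow, derivative_sub, derivative_X, derivative_one]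
    rw [Nat.add_sub_cancel]
    ring
  have dadd : ∀ D D' : (ZMod p)[X], DD (D + D') = DD D + DD D' := by
    intro D D'
    unfold DD
    rw [derivative_add, mul_add]
  have dX : DD (X ^ t * g.reflect m) = X ^ t * (C (t : ZMod p) * g.reflect m +
      DD (g.reflect m)) := X_mul_derivative t (g.reflect m)
  obtain ⟨A', hA'⟩ := dpow A
  obtain ⟨B', hB'⟩ := dpow B
  have hW : (X - 1) ^ u ∣ Wf (t + m) g2 - X ^ t * (Wf m g - C (t : ZMod p) * Vf m g) := by
    unfold Wf Vf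
    rw [e2, dadd, hB', dX]
    rw [e1, dadd, hA']
    refine ⟨(X ^ t * g.reflect m + (X - 1) ^ (u + 1) * B) * A' + (X - 1) * B * DD g -
      (g + (X - 1) ^ (u + 1) * A) * B' - (X - 1) * A * (X ^ t * (C (t : ZMod p) * g.reflect m +
      DD (g.reflect m))), ?_⟩
    ring
  have hV : (X - 1) ^ u ∣ Vf (t + m) g2 - X ^ t * Vf m g := by
    unfold Vf
    rw [e2, e1]
    refine ⟨(X - 1) * (A * (X ^ t * g.reflect m + (X - 1) ^ (u + 1) * B) + g * B), ?_⟩
    ring
  have h1 := lin_congr (n := n) hW hV b d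
  rw [lin_scale] at h1
  have h2 : (X - 1 : (ZMod p)[X]) ^ u ∣ Lin n (Wf (t + m) g2) (Vf (t + m) g2) b d :=
    (pow_dvd_pow _ (by omega)).trans hdvd
  have h3 := (dvd_sub_right h2).1 h1
  have h4 := (cop (F := ZMod p) u _).dvd_of_dvd_mul_left h3
  have hWd := Y590.WQ.Wf_natDegree_le hm0 hg
  have hVd := Y590.WQ.Vf_natDegree_le hg
  have hL : Lin n (Wf m g) (Vf m g) b (d + t * ∑ i ∈ Finset.Icc 1 n, b i) = 0 := by
    refine eq_zero_of_dvd_of_natDegree_lt h4 ?_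
    have h3 := Y590.WQ.Lin_natDegree_le (n := n) hWd hVd b (d + t * ∑ i ∈ Finset.Icc 1 n, b i)
    rw [Y590.WQ.sum_Icc] at h3
    refine h3.trans_lt ?_
    rw [natDegree_one_pow]
    omega
  have hVc : (Vf m g).coeff 0 ≠ 0 := by
    unfold Vf
    rw [mul_coeff_zero, Y590.WQ.reflect_coeff_zero]
    exact mul_ne_zero h0 hm
  have hWc : (Wf m g).coeff 0 = 0 := by
    unfold Wf
    rw [coeff_sub, mul_coeff_zero, mul_coeff_zero, Y590.WQ.DD_coeff_zero, Y590.WQ.DD_coeff_zero]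
    ring
  have hW0 : Wf m g = 0 := Y286.WQ.mainPOLE2 p n (Wf m g) (Vf m g) b _ (by omega)
    (by rw [Y590.WQ.Vf_natDegree hg h0 hm]; exact hWd) hVc hWc hb hL
  have hw : g.reflect m * derivative g = g * derivative (g.reflect m) := by
    have h3 : X * (g.reflect m * derivative g - g * derivative (g.reflect m)) = 0 := by
      rw [← hW0]
      unfold Wf DD
      ring
    rcases mul_eq_zero.1 h3 with h4 | h4
    · exact absurd h4 X_ne_zero
    · exact sub_eq_zero.1 h4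
  have hprop := Y590.WQ.prop_of_wronskian (m := m) (by omega) hg (Y590.WQ.reflect_natDegree_le hg)
    (by rw [Y590.WQ.reflect_coeff_zero]; exact hm) hw
  rw [Y590.WQ.reflect_coeff_zero] at hprop
  have h3 := congrArg (fun q => eval 1 q) hprop
  simp only [eval_mul, eval_C] at h3
  rw [Y590.WQ.reflect_eval_one hg] at h3
  have h4 : g.coeff m = g.coeff 0 := mul_right_cancel₀ he h3
  rw [h4] at hprop
  exact (mul_left_cancel₀ (C_ne_zero.2 h0) hprop).symm

end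

end Pool.Agent.U549.LF
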