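import Pool.Agent.U549.LF.Main
import Pool.Agent.N840.QF.Fin

/-!
# Quadratic fields
-/

set_option autoImplicit false
set_option linter.deprecated false

namespace Pool.Agent.U549.LF

open NumberField IsDedekindDomain Polynomial Pool.Agent.Y546.WQ Pool.Agent.N840.FC

section

variable {p : ℕ} [Fact p.Prime] {K : Type} [Field K] [NumberField K]

theorem sum_ld (T : Finset (HeightOneSpectrum (𝓞 K)))
    (hT : ∀ v : HeightOneSpectrum (𝓞 K), v ∈ T ↔ ((p : ℕ) : 𝓞 K) ∈ v.asIdeal) :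
    ∑ v ∈ T, ld p v = Module.finrank ℚ K := by
  classical
  have hpp : p.Prime := Fact.out
  have hmax : (Ideal.span {(p : ℤ)}).IsMaximal := span_max
  have hbot : Ideal.span {(p : ℤ)} ≠ ⊥ := by
    rw [Ne, Ideal.span_singleton_eq_bot]
    exact_mod_cast hpp.ne_zero
  rw [← Ideal.sum_ramification_inertia (𝓞 K) ℚ K hbot]
  let e : HeightOneSpectrum (𝓞 K) ↪ Ideal (𝓞 K) :=
    ⟨fun v => v.asIdeal, fun a b h => HeightOneSpectrum.ext h⟩
  have h1 : IsDedekindDomain.primesOverFinset (Ideal.span {(p : ℤ)}) (𝓞 K) = T.map e := by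
    ext P
    rw [IsDedekindDomain.mem_primesOverFinset_iff hbot, Finset.mem_map]
    constructor
    · rintro ⟨h1, h2⟩
      have h3 : (p : ℤ) ∈ P.under ℤ := by
        rw [← h2.over]
        exact Ideal.mem_span_singleton_self _
      rw [Ideal.under_def, Ideal.mem_comap] at h3
      have h4 : ((p : ℕ) : 𝓞 K) ∈ P := by simpa using h3
      have h5 : P ≠ ⊥ := by
        rintro rfl
        rw [Ideal.mem_bot, Nat.cast_eq_zero] at h4
        exact hpp.ne_zero h4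
      exact ⟨⟨P, h1, h5⟩, (hT _).2 h4, rfl⟩
    · rintro ⟨v, hv, rfl⟩
      exact ⟨v.isPrime, liesOver v.asIdeal v.isPrime ((hT v).1 hv)⟩
  rw [h1, Finset.sum_map]
  rfl

theorem rd_pos (v : HeightOneSpectrum (𝓞 K)) (hv : ((p : ℕ) : 𝓞 K) ∈ v.asIdeal) :
    1 ≤ rd p v := by
  by_contra hcon
  have h0 : rd p v = 0 := by omega
  have h1 := absNorm_rd v hv
  rw [h0, pow_zero] at h1
  exact v.isPrime.ne_top (Ideal.absNorm_eq_one_iff.1 h1)

theorem ram_pos (v : HeightOneSpectrum (𝓞 K)) (hv : ((p : ℕ) : 𝓞 K) ∈ v.asIdeal) :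
    1 ≤ Ideal.ramificationIdx' (Ideal.span {(p : ℤ)}) v.asIdeal := by
  have hpp : p.Prime := Fact.out
  have hbot : Ideal.span {(p : ℤ)} ≠ ⊥ := by
    rw [Ne, Ideal.span_singleton_eq_bot]
    exact_mod_cast hpp.ne_zero
  have hl : v.asIdeal.LiesOver (Ideal.span {(p : ℤ)}) := liesOver v.asIdeal v.isPrime hv
  have hp := v.isPrime
  exact Nat.one_le_iff_ne_zero.2
    (Ideal.IsDedekindDomain.ramificationIdx'_ne_zero_of_liesOver v.asIdeal hbot)

theorem ld_pos (v : HeightOneSpectrum (𝓞 K)) (hv : ((p : ℕ) : 𝓞 K) ∈ v.asIdeal) :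
    1 ≤ ld p v := Nat.mul_le_mul (ram_pos v hv) (rd_pos v hv)

theorem exists_T (K : Type) [Field K] [NumberField K] :
    ∃ T : Finset (HeightOneSpectrum (𝓞 K)),
      ∀ v : HeightOneSpectrum (𝓞 K), v ∈ T ↔ ((p : ℕ) : 𝓞 K) ∈ v.asIdeal := by
  classical
  have hpp : p.Prime := Fact.out
  obtain ⟨T, hT⟩ := finite_primes (K := K) p hpp.ne_zero
  refine ⟨T.filter fun v => ((p : ℕ) : 𝓞 K) ∈ v.asIdeal, fun v => ?_⟩
  rw [Finset.mem_filter]
  exact ⟨fun h => h.2, fun h => ⟨hT v h, h⟩⟩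

end

/-- quadratic fields -/
theorem quad {p : ℕ} (hp : p.Prime) {K : Type} [Field K] [NumberField K]
    (hK : Module.finrank ℚ K = 2) (k : ℕ)
    {x y z : K} (hx : x ≠ 0) (hy : y ≠ 0) (hz : z ≠ 0)
    (h : x ^ (p * k) + y ^ (p * k) = z ^ (p * k)) (hreg : BernS p 2 1)
    (v₁ : HeightOneSpectrum (𝓞 K)) (hv₁ : ((p : ℕ) : 𝓞 K) ∈ v₁.asIdeal)
    (he₁ : EqualAt v₁ x y z) :
    (∀ v : HeightOneSpectrum (𝓞 K), ((p : ℕ) : 𝓞 K) ∈ v.asIdeal → EqualAt v x y z) ∧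
    (BernS p 2 2 → (∀ v : HeightOneSpectrum (𝓞 K), ((p : ℕ) : 𝓞 K) ∈ v.asIdeal →
        CubeAt v k x y) ∧
      ((p % 3 = 1 ∧ ∃ v w : HeightOneSpectrum (𝓞 K), v ≠ w ∧ ((p : ℕ) : 𝓞 K) ∈ v.asIdeal ∧
        ((p : ℕ) : 𝓞 K) ∈ w.asIdeal) ∨
      (p % 3 = 2 ∧ ∀ v : HeightOneSpectrum (𝓞 K), ((p : ℕ) : 𝓞 K) ∈ v.asIdeal →
        Ideal.absNorm v.asIdeal = p ^ 2))) := by
  classical
  have hfact : Fact p.Prime := ⟨hp⟩
  obtain ⟨T, hT⟩ := exists_T (p := p) K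
  have hsT := sum_ld T hT
  rw [hK] at hsT
  obtain ⟨R, hR⟩ : ∃ R : Finset (HeightOneSpectrum (𝓞 K)),
    R = T.filter fun v => EqualAt v x y z ∧ ¬ CubeAt v k x y := ⟨_, rfl⟩
  obtain ⟨C, hC⟩ : ∃ C : Finset (HeightOneSpectrum (𝓞 K)),
    C = T.filter fun v => EqualAt v x y z ∧ CubeAt v k x y := ⟨_, rfl⟩
  have hR' : ∀ v : HeightOneSpectrum (𝓞 K), v ∈ R ↔ (((p : ℕ) : 𝓞 K) ∈ v.asIdeal ∧
      EqualAt v x y z ∧ ¬ CubeAt v k x y) := by
    intro v
    rw [hR, Finset.mem_filter, hT]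
  have hC' : ∀ v : HeightOneSpectrum (𝓞 K), v ∈ C ↔ (((p : ℕ) : 𝓞 K) ∈ v.asIdeal ∧
      EqualAt v x y z ∧ CubeAt v k x y) := by
    intro v
    rw [hC, Finset.mem_filter, hT]
  have hdisj : Disjoint R C := by
    rw [Finset.disjoint_left]
    intro v h1 h2
    exact ((hR' v).1 h1).2.2 ((hC' v).1 h2).2.2
  have hsub : R ∪ C ⊆ T := by
    intro v hv
    rw [hT]
    rcases Finset.mem_union.1 hv with h1 | h1
    · exact ((hR' v).1 h1).1
    · exact ((hC' v).1 h1).1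
  have hrc : ∑ v ∈ R, ld p v + ∑ v ∈ C, ld p v = ∑ v ∈ R ∪ C, ld p v :=
    (Finset.sum_union hdisj).symm
  have hle : ∑ v ∈ R ∪ C, ld p v ≤ 2 := by
    rw [← hsT]
    exact Finset.sum_le_sum_of_subset hsub
  have memRC : ∀ v : HeightOneSpectrum (𝓞 K), v ∈ R ∪ C ↔ (v ∈ T ∧ EqualAt v x y z) := by
    intro v
    rw [Finset.mem_union, hR', hC', hT]
    tauto
  have h1RC : v₁ ∈ R ∪ C := (memRC v₁).2 ⟨(hT v₁).2 hv₁, he₁⟩
  have hpos : 1 ≤ ∑ v ∈ R ∪ C, ld p v :=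
    (ld_pos v₁ hv₁).trans (Finset.single_le_sum (f := fun v => ld p v) (fun _ _ => Nat.zero_le _)
      h1RC)
  have main1 : ∀ t : ℕ, ∑ v ∈ R ∪ C, ld p v ≤ t → BernS p 2 t → _ := fun t ht hb =>
    main hp k hx hy hz h R C hR' hC' _ _ t rfl rfl (Or.inr (hrc.trans_le ht)) (by rw [hK]; exact hb)
  have heq : ∀ v : HeightOneSpectrum (𝓞 K), ((p : ℕ) : 𝓞 K) ∈ v.asIdeal → EqualAt v x y z := by
    intro v hv
    by_contra hcon
    have hvT : v ∈ T := (hT v).2 hv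
    have hv1 : v ∉ R ∪ C := fun h1 => hcon ((memRC v).1 h1).2
    have h2 : ∑ w ∈ R ∪ C, ld p w + ld p v ≤ 2 := by
      rw [← hsT]
      have h3 : insert v (R ∪ C) ⊆ T := by
        intro w hw
        rcases Finset.mem_insert.1 hw with rfl | hw
        · exact hvT
        · exact hsub hw
      have h4 := Finset.sum_le_sum_of_subset (f := fun v => ld p v) h3
      rw [Finset.sum_insert hv1] at h4
      omega
    have h3 := ld_pos v hv
    obtain ⟨⟨h4, -⟩, ⟨h5, -⟩, -⟩ := main1 1 (by omega) hreg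
    obtain ⟨d, hd⟩ := h4
    obtain ⟨d', hd'⟩ := h5
    omega
  refine ⟨heq, fun hb => ?_⟩
  obtain ⟨⟨h4, h4'⟩, ⟨h5, h5'⟩, -⟩ := main1 2 hle hb
  have hr0 : ∑ v ∈ R, ld p v = 0 := by
    obtain ⟨d', hd'⟩ := h5
    omega
  have hRC : R ∪ C = T := by
    ext v
    rw [memRC]
    exact ⟨fun h => h.1, fun h => ⟨h, heq v ((hT v).1 h)⟩⟩
  have hc2 : ∑ v ∈ C, ld p v = 2 := by
    rw [hRC] at hrc
    omega
  have hR0 : R = ∅ := by
    rw [Finset.eq_empty_iff_forall_notMem]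
    intro v hv
    have h6 := (ld_pos v ((hR' v).1 hv).1).trans
      (Finset.single_le_sum (f := fun v => ld p v) (fun _ _ => Nat.zero_le _) hv)
    omega
  rw [hR0, Finset.empty_union] at hRC
  have hcube : ∀ v : HeightOneSpectrum (𝓞 K), ((p : ℕ) : 𝓞 K) ∈ v.asIdeal → CubeAt v k x y := by
    intro v hv
    have : v ∈ C := by
      rw [hRC, hT]
      exact hv
    exact ((hC' v).1 this).2.2
  refine ⟨hcube, ?_⟩
  have hp3 : p % 3 = 1 ∨ p % 3 = 2 := by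
    have h6 : p % 3 ≠ 0 := by
      intro h6
      have h7 : 3 ∣ p := Nat.dvd_of_mod_eq_zero h6
      have h8 := (Nat.prime_dvd_prime_iff_eq Nat.prime_three hp).1 h7
      have := hreg.le
      omega
    omega
  rcases hp3 with hp3 | hp3
  · refine Or.inl ⟨hp3, ?_⟩
    have h6 : ∀ v ∈ C, ld p v ≤ 1 := by
      intro v hv
      have := (h4' v hv).2 hp3
      omega
    have h7 : ∑ v ∈ C, ld p v ≤ C.card := by
      have := Finset.sum_le_card_nsmul C (fun v => ld p v) 1 h6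
      simpa using this
    have h8 : 1 < C.card := by omega
    obtain ⟨v, hv, w, hw, hvw⟩ := Finset.one_lt_card.1 h8
    exact ⟨v, w, hvw, ((hC' v).1 hv).1, ((hC' w).1 hw).1⟩
  · refine Or.inr ⟨hp3, fun v hv => ?_⟩
    have hvC : v ∈ C := by
      rw [hRC, hT]
      exact hv
    have h6 : 6 ∣ (Ideal.absNorm v.asIdeal - 1) /
        Nat.gcd (Ideal.absNorm v.asIdeal - 1) (p * k) := not_not.1 (h4' v hvC).1
    have h7 : 3 ∣ Ideal.absNorm v.asIdeal - 1 :=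
      ((by norm_num : 3 ∣ 6).trans h6).trans (Nat.div_dvd_of_dvd (Nat.gcd_dvd_left _ _))
    rw [absNorm_rd v hv] at h7 ⊢
    have h8 : ld p v ≤ 2 := by
      rw [← hc2]
      exact Finset.single_le_sum (f := fun v => ld p v) (fun _ _ => Nat.zero_le _) hvC
    have h9 := rd_pos v hv
    have h10 : rd p v ≤ 2 := by
      have h11 := ram_pos v hv
      have h12 : 1 * rd p v ≤ ld p v := Nat.mul_le_mul_right _ h11
      omega
    have h13 : rd p v ≠ 1 := by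
      intro h13
      rw [h13, pow_one] at h7
      omega
    have h14 : rd p v = 2 := by omega
    rw [h14]

/-- the remaining case -/
theorem quad_six {p : ℕ} (hp : p.Prime) {K : Type} [Field K] [NumberField K]
    (hK : Module.finrank ℚ K = 2) {k : ℕ} (hk : k ≠ 0)
    {x y z : K} (hx : x ≠ 0) (hy : y ≠ 0) (hz : z ≠ 0)
    (h : x ^ (p * k) + y ^ (p * k) = z ^ (p * k)) (h11 : 11 ≤ p)
    (hcond : Bern p 2 ∨ (p - 3 ∉ irr p ∧ ¬ p ^ 2 ∣ 2 ^ (p - 1) - 1))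
    (he : ∀ v : HeightOneSpectrum (𝓞 K), ((p : ℕ) : 𝓞 K) ∈ v.asIdeal → EqualAt v x y z) :
    6 ∣ (if p % 3 = 1 then p - 1 else p + 1) /
      Nat.gcd (if p % 3 = 1 then p - 1 else p + 1) (p * k) := by
  have h1 := Pool.Agent.N840.QF.main hp h11 hK hk (by tauto) hx hy hz h he
  have hcop : Nat.Coprime (if p % 3 = 1 then p - 1 else p + 1) p := by
    rw [Nat.coprime_comm, Nat.Prime.coprime_iff_not_dvd hp]
    intro hd
    split_ifs at hd with h3
    · have := Nat.le_of_dvd (by omega) hd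
      omega
    · have h4 := (Nat.dvd_add_right (dvd_refl p)).1 hd
      have := Nat.le_of_dvd (by omega) h4
      omega
  rw [Nat.Coprime.gcd_mul_left_cancel_right k hcop.symm]
  exact h1

end Pool.Agent.U549.LF
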