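import Pool.Agent.Y546.WQ.Cas3
import Pool.Agent.Y258.WQ.DOWNG
import Pool.Agent.Y261.WQ.IDE

/-!
# The valuations of `x + w y` at primes which do not divide `p`
-/

set_option autoImplicit false

namespace Pool.Agent.U549.LF

open NumberField IsDedekindDomain Polynomial Pool.Agent.Y546.WQ

theorem prod_exp {ι : Type*} (s : Finset ι) (a : ι → ℤ) :
    ∏ i ∈ s, WithZero.exp (a i) = WithZero.exp (∑ i ∈ s, a i) := by
  classical
  induction s using Finset.induction_on with
  | empty => simp
  | insert i s hi ih => rw [Finset.prod_insert hi, Finset.sum_insert hi, ih, WithZero.exp_add]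

section ded

variable {R : Type} [CommRing R] [IsDedekindDomain R]

theorem val_root (q : HeightOneSpectrum R) {ζ : R} {p : ℕ} (hp0 : p ≠ 0) (h : ζ ^ p = 1) :
    q.intValuation ζ = 1 := by
  by_contra hcon
  have h1 : ζ ∈ q.asIdeal :=
    (q.intValuation_lt_one_iff_mem _).1 (lt_of_le_of_ne (q.intValuation_le_one _) hcon)
  have h2 := Ideal.pow_mem_of_mem _ h1 p (Nat.pos_of_ne_zero hp0)
  rw [h] at h2
  exact (Ideal.ne_top_iff_one _).1 q.isPrime.ne_top h2

theorem val_sub_root (q : HeightOneSpectrum R) {p : ℕ} [Fact p.Prime]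
    (hpq : (p : R) ∉ q.asIdeal) {ζ ξ : R} (hζ : ζ ^ p = 1) (hξ : ξ ^ p = 1) (hne : ζ ≠ ξ) :
    q.intValuation (ζ - ξ) = 1 := by
  have hp : p.Prime := Fact.out
  by_contra hcon
  have h1 : ζ - ξ ∈ q.asIdeal :=
    (q.intValuation_lt_one_iff_mem _).1 (lt_of_le_of_ne (q.intValuation_le_one _) hcon)
  have hz : ζ ^ (p - 1) * ζ = 1 := by
    rw [← pow_succ, Nat.sub_add_cancel hp.one_lt.le, hζ]
  set η : R := ξ * ζ ^ (p - 1) with hη
  have e1 : ζ * η = ξ := by
    rw [hη]
    linear_combination ξ * hz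
  have e2 : η ^ p = 1 := by
    rw [hη, mul_pow, hξ, one_mul, ← pow_mul, mul_comm, pow_mul, hζ, one_pow]
  have e3 : η ≠ 1 := by
    intro h
    rw [h, mul_one] at e1
    exact hne e1
  have e4 : IsPrimitiveRoot η p := by
    have h1 := IsPrimitiveRoot.orderOf η
    rwa [orderOf_eq_prime e2 e3] at h1
  have e5 : 1 - η ∈ q.asIdeal := by
    have : 1 - η = ζ ^ (p - 1) * (ζ - ξ) := by
      rw [hη]
      linear_combination -hz
    rw [this]
    exact Ideal.mul_mem_left _ _ h1
  exact hpq (q.asIdeal.mem_of_dvd (Y261.WQ.p_dvd e4) e5)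

/-- the valuations of `x + y` and `x + w y` are congruent modulo `p` -/
theorem val_lin (q : HeightOneSpectrum R) {p : ℕ} [Fact p.Prime] (hp2 : p ≠ 2) {w : R}
    (hw : IsPrimitiveRoot w p) (hpq : (p : R) ∉ q.asIdeal) {x y z : R} (hy : y ≠ 0)
    (hz : z ≠ 0) (h : x ^ p + y ^ p + z ^ p = 0) :
    ∃ n : ℤ, q.intValuation (x + w * y) =
      q.intValuation (x + y) * WithZero.exp ((p : ℤ) * n) := by
  classical
  have hp : p.Prime := Fact.out
  have hodd : Odd p := hp.odd_of_ne_two hp2
  have hp0 : p ≠ 0 := hp.ne_zero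
  set S : Finset R := nthRootsFinset p (1 : R) with hS
  have hprod : ∏ ζ ∈ S, (x + ζ * y) = -z ^ p := by
    rw [← hw.pow_add_pow_eq_prod_add_mul x y hodd]
    linear_combination h
  have hroot : ∀ ζ ∈ S, ζ ^ p = 1 := fun ζ hζ => (mem_nthRootsFinset hp.pos 1).1 hζ
  have h1S : (1 : R) ∈ S := (mem_nthRootsFinset hp.pos 1).2 (one_pow p)
  have hwS : w ∈ S := (mem_nthRootsFinset hp.pos 1).2 hw.pow_eq_one
  have vy : q.intValuation y ≠ 0 := q.intValuation_ne_zero _ hy
  have vz : q.intValuation z ≠ 0 := q.intValuation_ne_zero _ hz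
  have vζ : ∀ ζ ∈ S, q.intValuation (ζ * y) = q.intValuation y := by
    intro ζ hζ
    rw [map_mul, val_root q hp0 (hroot ζ hζ), one_mul]
  by_cases hxy : q.intValuation x = q.intValuation y
  · have key : ∀ ζ ∈ S, ∃ n : ℤ, q.intValuation (x + ζ * y) =
        q.intValuation y * WithZero.exp ((p : ℤ) * n) := by
      intro ζ hζ
      by_cases h1 : q.intValuation (x + ζ * y) = q.intValuation y
      · refine ⟨0, ?_⟩
        rw [h1, mul_zero, WithZero.exp_zero, mul_one]
      · have h2 : q.intValuation (x + ζ * y) < q.intValuation y := by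
          refine lt_of_le_of_ne ?_ h1
          have h3 := Valuation.map_add q.intValuation x (ζ * y)
          rwa [vζ ζ hζ, hxy, max_self] at h3
        have h3 : ∀ ξ ∈ S.erase ζ, q.intValuation (x + ξ * y) = q.intValuation y := by
          intro ξ hξ
          rw [Finset.mem_erase] at hξ
          have e1 : x + ξ * y = (x + ζ * y) + (ξ - ζ) * y := by ring
          have e2 : q.intValuation ((ξ - ζ) * y) = q.intValuation y := by
            rw [map_mul, val_sub_root q hpq (hroot ξ hξ.2) (hroot ζ hζ) hξ.1, one_mul]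
          rw [e1, Valuation.map_add_eq_of_lt_right _ (by rw [e2]; exact h2), e2]
        have h4 : q.intValuation (x + ζ * y) * q.intValuation y ^ (p - 1) =
            q.intValuation z ^ p := by
          have e1 := congrArg q.intValuation hprod
          rw [map_prod, ← Finset.mul_prod_erase S _ hζ, Finset.prod_congr rfl h3,
            Finset.prod_const, Finset.card_erase_of_mem hζ, hS, hw.card_nthRootsFinset,
            Valuation.map_neg, map_pow] at e1
          exact e1
        refine ⟨WithZero.log (q.intValuation z / q.intValuation y), ?_⟩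
        have h5 : q.intValuation z / q.intValuation y ≠ 0 := div_ne_zero vz vy
        have e2 : WithZero.exp ((p : ℤ) * WithZero.log (q.intValuation z / q.intValuation y)) =
            (q.intValuation z / q.intValuation y) ^ p := by
          have e3 := WithZero.exp_nsmul p (WithZero.log (q.intValuation z / q.intValuation y))
          rw [nsmul_eq_mul, WithZero.exp_log h5] at e3
          exact e3
        rw [e2, div_pow, ← h4]
        have e4 : q.intValuation y ^ p = q.intValuation y ^ (p - 1) * q.intValuation y := by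
          rw [← pow_succ, Nat.sub_add_cancel hp.one_lt.le]
        rw [e4]
        field_simp
    obtain ⟨a, ha⟩ := key w hwS
    obtain ⟨b, hb⟩ := key 1 h1S
    rw [one_mul] at hb
    refine ⟨a - b, ?_⟩
    rw [ha, hb, mul_assoc, ← WithZero.exp_add]
    congr 2
    ring
  · refine ⟨0, ?_⟩
    rw [mul_zero, WithZero.exp_zero, mul_one]
    rw [Valuation.map_add_of_distinct_val _ (by rw [vζ w hwS]; exact hxy),
      Valuation.map_add_of_distinct_val _ hxy, vζ w hwS]

end ded

section

variable {p : ℕ} [Fact p.Prime] {E : Type} [Field E] [NumberField E]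
  {K N : Type} [Field K] [NumberField K] [Field N] [NumberField N] [Algebra E N]

/-- the values of the norm polynomial at `1` and at the root of unity, away from `p` -/
theorem fldV [IsGalois E N] (hmp : Module.finrank ℚ K < p)
    (hdv : Module.finrank E N ∣ (Module.finrank ℚ K).factorial) (hp2 : p ≠ 2) (c : Cyc p E)
    (X Y Z : 𝓞 K) (hY : Y ≠ 0) (hZ : Z ≠ 0)
    (h : X ^ p + Y ^ p + Z ^ p = 0)
    (f : Polynomial ℤ) (hf : f.map (Int.castRingHom (𝓞 N)) = nrmP K N X Y) :
    aeval c.z f ≠ 0 ∧ f.eval 1 ≠ 0 ∧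
    ∀ P : HeightOneSpectrum (𝓞 E), ((p : ℕ) : 𝓞 E) ∉ P.asIdeal →
      ∃ m : ℤ, P.valuation E (aeval c.z f) =
        P.valuation E ((f.eval 1 : ℤ) : E) * WithZero.exp ((p : ℤ) * m) := by
  classical
  have hpp : p.Prime := Fact.out
  have hodd : Odd p := hpp.odd_of_ne_two hp2
  obtain ⟨i, hi⟩ : ∃ i : E →+* N, i = algebraMap E N := ⟨_, rfl⟩
  -- the root of unity in the integers of N
  have hzint : IsIntegral ℤ (i c.z) := by
    have h1 : (i c.z) ^ p = 1 := by rw [← map_pow, c.prim.pow_eq_one, map_one]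
    exact ⟨Polynomial.X ^ p - 1, Polynomial.monic_X_pow_sub_C 1 hpp.ne_zero, by simp [h1]⟩
  obtain ⟨zN, hzN⟩ : ∃ w : 𝓞 N, (w : N) = i c.z := ⟨⟨i c.z, hzint⟩, rfl⟩
  have hzprim : IsPrimitiveRoot zN p := by
    apply IsPrimitiveRoot.of_map_of_injective (f := algebraMap (𝓞 N) N) _
      RingOfIntegers.coe_injective
    have h1 : algebraMap (𝓞 N) N zN = i c.z := hzN
    rw [h1]
    exact c.prim.map_of_injective i.injective
  have key0 : ∀ τ : K →+* N, ∀ u : 𝓞 N, u ^ p = 1 →
      RingOfIntegers.mapRingHom τ X + u * RingOfIntegers.mapRingHom τ Y ≠ 0 := by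
    intro τ u hu h0
    have finj := mapRingHom_inj τ
    generalize RingOfIntegers.mapRingHom τ = φ at finj h0
    have habd : φ X ^ p + φ Y ^ p + φ Z ^ p = 0 := by
      rw [← map_pow, ← map_pow, ← map_pow, ← map_add, ← map_add, h, map_zero]
    have h2 : φ X = -(u * φ Y) := eq_neg_of_add_eq_zero_left h0
    have h3 : φ Z ^ p = 0 := by
      rw [h2, hodd.neg_pow, mul_pow, hu, one_mul, neg_add_cancel, zero_add] at habd
      exact habd
    have h5 := (pow_eq_zero_iff hpp.ne_zero).1 h3
    exact hZ (finj (by rw [h5, map_zero]))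
  have hval : ∀ q : HeightOneSpectrum (𝓞 N), ((p : ℕ) : 𝓞 N) ∉ q.asIdeal → ∀ τ : K →+* N,
      ∃ n : ℤ, q.intValuation (RingOfIntegers.mapRingHom τ X +
        zN * RingOfIntegers.mapRingHom τ Y) = q.intValuation (RingOfIntegers.mapRingHom τ X +
          RingOfIntegers.mapRingHom τ Y) * WithZero.exp ((p : ℤ) * n) := by
    intro q hq τ
    have finj := mapRingHom_inj τ
    generalize RingOfIntegers.mapRingHom τ = φ at finj
    have habd : φ X ^ p + φ Y ^ p + φ Z ^ p = 0 := by
      rw [← map_pow, ← map_pow, ← map_pow, ← map_add, ← map_add, h, map_zero]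
    exact val_lin q hp2 hzprim hq (fun h0 => hY (finj (by rw [h0, map_zero])))
      (fun h0 => hZ (finj (by rw [h0, map_zero]))) habd
  have eU : ((∏ τ : K →+* N, (RingOfIntegers.mapRingHom τ X +
      zN * RingOfIntegers.mapRingHom τ Y) : 𝓞 N) : N) = i (aeval c.z f) := by
    rw [← eval_f hf zN]
    have e1 : algebraMap (𝓞 N) N (aeval zN f) = aeval (algebraMap (𝓞 N) N zN) f :=
      (aeval_algebraMap_apply N zN f).symm
    have e2 : algebraMap (𝓞 N) N zN = i c.z := hzN
    rw [e2] at e1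
    refine e1.trans ?_
    rw [aeval_def, aeval_def, hom_eval₂]
    congr 1
    exact RingHom.ext_int _ _
  have eV : ((∏ τ : K →+* N, (RingOfIntegers.mapRingHom τ X +
      RingOfIntegers.mapRingHom τ Y) : 𝓞 N) : N) = i ((f.eval 1 : ℤ) : E) := by
    have e0 : (∏ τ : K →+* N, (RingOfIntegers.mapRingHom τ X + RingOfIntegers.mapRingHom τ Y)) =
        ((f.eval 1 : ℤ) : 𝓞 N) := by
      have e1 := eval_f hf (1 : 𝓞 N)
      simp only [one_mul] at e1
      rw [← e1]
      have e2 := aeval_algebraMap_apply (𝓞 N) (1 : ℤ) f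
      rw [map_one] at e2
      rw [e2]
      rfl
    rw [e0, map_intCast]
    exact map_intCast (algebraMap (𝓞 N) N) _
  have hU0 : (∏ τ : K →+* N, (RingOfIntegers.mapRingHom τ X +
      zN * RingOfIntegers.mapRingHom τ Y)) ≠ 0 :=
    Finset.prod_ne_zero_iff.2 fun τ _ => key0 τ zN hzprim.pow_eq_one
  have hV0 : (∏ τ : K →+* N, (RingOfIntegers.mapRingHom τ X +
      RingOfIntegers.mapRingHom τ Y)) ≠ 0 := Finset.prod_ne_zero_iff.2 fun τ _ => by
    have := key0 τ 1 (one_pow p)
    rwa [one_mul] at this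
  have hu0 : aeval c.z f ≠ 0 := by
    intro h0
    rw [h0, map_zero] at eU
    exact hU0 (RingOfIntegers.coe_injective (by rw [map_zero]; exact eU))
  have hv0 : ((f.eval 1 : ℤ) : E) ≠ 0 := by
    intro h0
    rw [h0, map_zero] at eV
    exact hV0 (RingOfIntegers.coe_injective (by rw [map_zero]; exact eV))
  refine ⟨hu0, fun h0 => hv0 (by rw [h0, Int.cast_zero]), ?_⟩
  intro P hP
  obtain ⟨q, e, he, hq⟩ := Y258.WQ.exists_above (L := N) P
  have hpe : ¬ p ∣ e := by
    intro h1
    have h2 := (Nat.Prime.dvd_factorial hpp).1 ((h1.trans he).trans hdv)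
    omega
  have hqp : ((p : ℕ) : 𝓞 N) ∉ q.asIdeal := by
    intro h1
    have h2 := (q.valuation_lt_one_iff_mem (K := N) ((p : ℕ) : 𝓞 N)).2 h1
    have h3 : q.valuation N (algebraMap E N ((p : ℕ) : E)) = P.valuation E ((p : ℕ) : E) ^ e :=
      hq _
    have h4 : P.valuation E ((p : ℕ) : E) = 1 := by
      have h5 := val_one P ((p : ℕ) : 𝓞 E) hP
      simpa using h5
    rw [h4, one_pow, map_natCast] at h3
    have h6 : q.valuation N ((p : ℕ) : N) < 1 := by simpa using h2
    rw [h3] at h6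
    exact lt_irrefl _ h6
  choose n hn using hval q hqp
  have h1 : q.intValuation (∏ τ : K →+* N, (RingOfIntegers.mapRingHom τ X +
      zN * RingOfIntegers.mapRingHom τ Y)) = q.intValuation (∏ τ : K →+* N,
        (RingOfIntegers.mapRingHom τ X + RingOfIntegers.mapRingHom τ Y)) *
          WithZero.exp ((p : ℤ) * ∑ τ, n τ) := by
    rw [map_prod, map_prod, Finset.prod_congr rfl fun τ _ => hn τ, Finset.prod_mul_distrib,
      Finset.mul_sum, prod_exp]
  have h2 : P.valuation E (aeval c.z f) ^ e = P.valuation E ((f.eval 1 : ℤ) : E) ^ e *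
      WithZero.exp ((p : ℤ) * ∑ τ, n τ) := by
    rw [← hq, ← hq, ← hi, ← eU, ← eV]
    have e1 := q.valuation_of_algebraMap (K := N) (∏ τ : K →+* N, (RingOfIntegers.mapRingHom τ X +
      zN * RingOfIntegers.mapRingHom τ Y))
    have e2 := q.valuation_of_algebraMap (K := N) (∏ τ : K →+* N, (RingOfIntegers.mapRingHom τ X +
      RingOfIntegers.mapRingHom τ Y))
    refine e1.trans (h1.trans ?_)
    congr 1
    exact e2.symm
  have nu : P.valuation E (aeval c.z f) ≠ 0 := (Valuation.ne_zero_iff _).2 hu0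
  have nv : P.valuation E ((f.eval 1 : ℤ) : E) ≠ 0 := (Valuation.ne_zero_iff _).2 hv0
  obtain ⟨x, hx⟩ : ∃ x : ℤ, P.valuation E (aeval c.z f) = WithZero.exp x :=
    ⟨WithZero.log _, (WithZero.exp_log nu).symm⟩
  obtain ⟨y, hy⟩ : ∃ y : ℤ, P.valuation E ((f.eval 1 : ℤ) : E) = WithZero.exp y :=
    ⟨WithZero.log _, (WithZero.exp_log nv).symm⟩
  rw [hx, hy, ← WithZero.exp_nsmul, ← WithZero.exp_nsmul, ← WithZero.exp_add,
    WithZero.exp_inj] at h2
  have h3 : (e : ℤ) * (x - y) = p * ∑ τ, n τ := by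
    have h4 : (e : ℤ) * x = e * y + p * ∑ τ, n τ := by simpa using h2
    rw [mul_sub, h4]
    ring
  have hpi : Prime (p : ℤ) := Nat.prime_iff_prime_int.1 hpp
  have h4 : (p : ℤ) ∣ x - y := by
    rcases hpi.dvd_or_dvd (⟨_, h3⟩ : (p : ℤ) ∣ e * (x - y)) with h5 | h5
    · exact absurd (Int.natCast_dvd_natCast.1 h5) hpe
    · exact h5
  obtain ⟨m, hm⟩ := h4
  refine ⟨m, ?_⟩
  rw [hx, hy, ← WithZero.exp_add]
  congr 1
  linarith

end

end Pool.Agent.U549.LF
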