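import Pool.Agent.U549.LF.Pol
import Pool.Agent.U549.LF.Val
import Pool.Agent.Y546.WQ.All

/-!
# The relations for norm polynomials of arbitrary solutions
-/

set_option autoImplicit false

namespace Pool.Agent.U549.LF

open NumberField IsDedekindDomain Polynomial Pool.Agent.Y546.WQ

section

variable {p : ℕ} [Fact p.Prime]

/-- multiplication by a power of `X` -/
theorem Rel.mul_X {f : (ZMod p)[X]} (h : Rel p f) (b : ℕ) : Rel p (f * X ^ b) := by
  intro a ha hap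
  obtain ⟨i, r, hr, W, hW⟩ := h a ha hap
  obtain ⟨e, he⟩ : ∃ e : ℕ, e = ∑ t ∈ hf p a, ((t⁻¹ : (ZMod p)ˣ) : ZMod p).val * b := ⟨_, rfl⟩
  have h1 : thPa p a (f * X ^ b) = thPa p a f * X ^ e := by
    unfold thPa
    rw [he, ← Finset.prod_pow_eq_pow_sum, ← Finset.prod_mul_distrib]
    refine Finset.prod_congr rfl fun t _ => ?_
    rw [mul_comp, pow_comp, X_comp, pow_mul]
  refine ⟨i + e, r, hr, W * X ^ e, ?_⟩
  rw [h1, pow_add]
  linear_combination X ^ e * hW

variable {E : Type} [Field E] [NumberField E]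

/-- the polynomial whose value at the root of unity is `p / (z - 1) ^ (p - 1)` -/
noncomputable def G0 (p : ℕ) : ℤ[X] :=
  ∏ k ∈ Finset.range (p - 1), ∑ l ∈ Finset.range (k + 1), X ^ l

theorem G0_eval (hp2 : p ≠ 2) (c : Cyc p E) :
    aeval c.z (G0 p) * (c.z - 1) ^ (p - 1) = (p : E) := by
  have hp : p.Prime := Fact.out
  obtain ⟨n, rfl⟩ : ∃ n, p = n + 1 := ⟨p - 1, by have := hp.pos; omega⟩
  have h1 := c.prim.prod_pow_sub_one_eq_order
  rw [Nat.add_sub_cancel]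
  have h2 : Even n := by
    have := hp.odd_of_ne_two hp2
    rcases this with ⟨r, hr⟩
    exact ⟨r, by omega⟩
  rw [h2.neg_one_pow, one_mul] at h1
  have h3 : aeval c.z (G0 (n + 1)) = ∏ k ∈ Finset.range n, ∑ l ∈ Finset.range (k + 1), c.z ^ l := by
    unfold G0
    simp [map_prod]
  rw [h3]
  have h4 : (c.z - 1) ^ n = ∏ _k ∈ Finset.range n, (c.z - 1) := by
    rw [Finset.prod_const, Finset.card_range]
  rw [h4, ← Finset.prod_mul_distrib]
  push_cast
  rw [← h1]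
  exact Finset.prod_congr rfl fun k _ => geom_sum_mul _ _

theorem lift_mod (f : ℤ[X]) (h : f.map (Int.castRingHom (ZMod p)) = 0) :
    ∃ H : ℤ[X], f = C (p : ℤ) * H := by
  have h1 : C (p : ℤ) ∣ f := by
    rw [C_dvd_iff_dvd_coeff]
    intro i
    have h2 := congrArg (fun q => q.coeff i) h
    simp only [coeff_map, coeff_zero, eq_intCast] at h2
    exact (ZMod.intCast_zmod_eq_zero_iff_dvd _ p).1 h2
  exact h1

theorem eval_map_apply_one (f : ℤ[X]) :
    (f.map (Int.castRingHom (ZMod p))).eval 1 = ((f.eval 1 : ℤ) : ZMod p) := by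
  have h := Polynomial.eval_one_map (Int.castRingHom (ZMod p)) f
  exact h

theorem val_int (P : HeightOneSpectrum (𝓞 E)) (hP : ((p : ℕ) : 𝓞 E) ∈ P.asIdeal) (n : ℤ)
    (hn : ¬ (p : ℤ) ∣ n) : P.valuation E (((n : ℤ) : E)) = 1 := by
  have hpp : p.Prime := Fact.out
  have := val_one P ((n : ℤ) : 𝓞 E) (int_notMem P.asIdeal P.isPrime p hpp hP n hn)
  simpa using this

theorem val_at_p (c : Cyc p E) (f : ℤ[X]) (hp1 : ¬ (p : ℤ) ∣ f.eval 1)
    (P : HeightOneSpectrum (𝓞 E)) (hP : ((p : ℕ) : 𝓞 E) ∈ P.asIdeal) :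
    P.valuation E (aeval c.z f) = 1 := by
  have hpp : p.Prime := Fact.out
  obtain ⟨w, hwz, hw⟩ := exists_zint c
  have hΛ : algebraMap (𝓞 E) E (aeval w f) = aeval c.z f := by
    have hwz' : algebraMap (𝓞 E) E w = c.z := hwz
    rw [← hwz']
    exact (aeval_algebraMap_apply E w f).symm
  rw [← hΛ]
  apply val_one
  intro h3
  apply int_notMem P.asIdeal P.isPrime p hpp hP (f.eval 1) hp1
  have h4 : w - 1 ∣ aeval w f - ((f.eval 1 : ℤ) : 𝓞 E) := by
    have h5 := sub_dvd_eval_sub w 1 (f.map (algebraMap ℤ (𝓞 E)))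
    rw [eval_map_algebraMap, eval_map_algebraMap] at h5
    have h6 : aeval (1 : 𝓞 E) f = ((f.eval 1 : ℤ) : 𝓞 E) := by
      have e2 := aeval_algebraMap_apply (𝓞 E) (1 : ℤ) f
      rw [map_one] at e2
      rw [e2]
      rfl
    rwa [h6] at h5
  obtain ⟨d, hd⟩ := h4
  have h7 : ((f.eval 1 : ℤ) : 𝓞 E) = aeval w f + d * (1 - w) := by
    linear_combination -hd
  rw [h7]
  exact P.asIdeal.add_mem h3
    (P.asIdeal.mul_mem_left _ (one_sub_mem w hw.pow_eq_one P.asIdeal P.isPrime hP))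

theorem val_z_sub (c : Cyc p E) (P : HeightOneSpectrum (𝓞 E))
    (hP : ((p : ℕ) : 𝓞 E) ∉ P.asIdeal) : P.valuation E (c.z - 1) = 1 := by
  obtain ⟨w, hwz, hw⟩ := exists_zint c
  have h1 : w - 1 ∉ P.asIdeal := by
    intro h
    apply hP
    have h2 : 1 - w ∈ P.asIdeal := by
      have := P.asIdeal.neg_mem h
      rwa [neg_sub] at this
    exact P.asIdeal.mem_of_dvd (Y261.WQ.p_dvd hw) h2
  have h3 := val_one P (w - 1) h1
  have h4 : ((w - 1 : 𝓞 E) : E) = c.z - 1 := by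
    rw [← hwz]
    simp
  rwa [h4] at h3

/-- the relations modulo a lower power of `X - 1` -/
theorem relQ_of (hp2 : p ≠ 2) (c : Cyc p E) (f : ℤ[X]) (hf0 : aeval c.z f ≠ 0)
    (hf1 : f.eval 1 ≠ 0)
    (hv : ∀ P : HeightOneSpectrum (𝓞 E), ((p : ℕ) : 𝓞 E) ∉ P.asIdeal →
      ∃ m : ℤ, P.valuation E (aeval c.z f) =
        P.valuation E ((f.eval 1 : ℤ) : E) * WithZero.exp ((p : ℤ) * m))
    (k a : ℕ) (g : (ZMod p)[X]) (hk : k + 2 ≤ p) (ha : a ≤ p) (hg1 : g.eval 1 ≠ 0)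
    (hfg : f.map (Int.castRingHom (ZMod p)) = (X - 1) ^ k * (X ^ a * g)) :
    RelQ p (p - 1 - k) g := by
  have hpp : p.Prime := Fact.out
  obtain ⟨F1, hF1⟩ := Polynomial.map_surjective (Int.castRingHom (ZMod p))
    ZMod.intCast_surjective (X ^ a * g)
  obtain ⟨H, hH⟩ := lift_mod (p := p) (f - (X - 1) ^ k * F1) (by
    rw [Polynomial.map_sub, Polynomial.map_mul, Polynomial.map_pow, Polynomial.map_sub,
      Polynomial.map_one, map_X, hF1, hfg, sub_self])
  have hf : f = (X - 1) ^ k * F1 + C (p : ℤ) * H := by rw [← hH]; ring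
  obtain ⟨f2, hf2⟩ : ∃ f2 : ℤ[X], f2 = F1 + G0 p * (X - 1) ^ (p - 1 - k) * H := ⟨_, rfl⟩
  have hz1 : c.z - 1 ≠ 0 := by
    intro h
    exact c.prim.ne_one hpp.one_lt (sub_eq_zero.1 h)
  have hG := G0_eval hp2 c
  have hval : aeval c.z f = (c.z - 1) ^ k * aeval c.z f2 := by
    have e1 : aeval c.z f = (c.z - 1) ^ k * aeval c.z F1 + (p : E) * aeval c.z H := by
      rw [hf]
      simp
    have e2 : aeval c.z f2 = aeval c.z F1 + aeval c.z (G0 p) * (c.z - 1) ^ (p - 1 - k) *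
        aeval c.z H := by
      rw [hf2]
      simp
    have e3 : (c.z - 1) ^ (p - 1) = (c.z - 1) ^ k * (c.z - 1) ^ (p - 1 - k) := by
      rw [← pow_add]
      congr 1
      omega
    rw [e1, e2, ← hG, e3]
    ring
  have hf20 : aeval c.z f2 ≠ 0 := by
    intro h
    rw [h, mul_zero] at hval
    exact hf0 hval
  have hmap : f2.map (Int.castRingHom (ZMod p)) = X ^ a * g + (X - 1) ^ (p - 1 - k) *
      ((G0 p).map (Int.castRingHom (ZMod p)) * H.map (Int.castRingHom (ZMod p))) := by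
    rw [hf2, Polynomial.map_add, Polynomial.map_mul, Polynomial.map_mul, Polynomial.map_pow,
      Polynomial.map_sub, Polynomial.map_one, map_X, hF1]
    ring
  have hp1 : ¬ (p : ℤ) ∣ f2.eval 1 := by
    intro hd
    have e1 : (f2.map (Int.castRingHom (ZMod p))).eval 1 = 0 := by
      have e2 := eval_map_apply_one (p := p) f2
      rw [e2]
      exact (ZMod.intCast_zmod_eq_zero_iff_dvd _ p).2 hd
    rw [hmap] at e1
    simp only [eval_add, eval_mul, eval_pow, eval_X, one_pow, one_mul, eval_sub, eval_one,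
      sub_self] at e1
    rw [zero_pow (by omega), zero_mul, add_zero] at e1
    exact hg1 e1
  -- the part of `f (1)` prime to `p`
  obtain ⟨r, n, hn, hrn⟩ : ∃ (r : ℕ) (n : ℤ), ¬ (p : ℤ) ∣ n ∧ f.eval 1 = p ^ r * n := by
    have hfin : FiniteMultiplicity (p : ℤ) (f.eval 1) :=
      Int.finiteMultiplicity_iff.2 ⟨by simpa using hpp.one_lt.ne', hf1⟩
    obtain ⟨n, h1, h2⟩ := hfin.exists_eq_pow_mul_and_not_dvd
    exact ⟨_, n, h2, h1⟩
  have hv2 : ∀ P : HeightOneSpectrum (𝓞 E), ∃ m : ℤ, P.valuation E (aeval c.z f2) =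
      P.valuation E ((n : ℤ) : E) * WithZero.exp ((p : ℤ) * m) := by
    intro P
    by_cases hP : ((p : ℕ) : 𝓞 E) ∈ P.asIdeal
    · refine ⟨0, ?_⟩
      rw [mul_zero, WithZero.exp_zero, mul_one]
      rw [val_at_p c f2 hp1 P hP, val_int P hP n hn]
    · obtain ⟨m, hm⟩ := hv P hP
      have vp : P.valuation E (p : E) = 1 := by
        have h5 := val_one P ((p : ℕ) : 𝓞 E) hP
        simpa using h5
      have vz : P.valuation E (c.z - 1) = 1 := val_z_sub c P hP
      refine ⟨m, ?_⟩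
      rw [hval, map_mul, map_pow, vz, one_pow, one_mul] at hm
      rw [hm, hrn]
      push_cast
      rw [map_mul, map_pow, vp, one_pow, one_mul]
  have hrel : Rel p (f2.map (Int.castRingHom (ZMod p))) := by
    intro b hb hbp
    obtain ⟨u, hu, i, hi⟩ := relGA aUNITA hp2 b hb hbp c f2 n hn hp1 hf20 hv2
    obtain ⟨r', hr', hdv⟩ := Y919.WQ.mainLAMA p hp2 b hb hbp E c f2 n hn hp1 u hu i hi
    exact ⟨i, r', hr', hdv⟩
  refine ⟨f2.map (Int.castRingHom (ZMod p)) * X ^ (p - a), ?_, Rel.mul_X hrel _⟩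
  have e1 : (X - 1 : (ZMod p)[X]) ^ p = X ^ p - 1 := by
    rw [sub_pow_char, one_pow]
  have e2 : (X : (ZMod p)[X]) ^ p = X ^ a * X ^ (p - a) := by
    rw [← pow_add]
    congr 1
    omega
  have e3 : (X - 1 : (ZMod p)[X]) ^ p = (X - 1) ^ (p - 1 - k) * (X - 1) ^ (k + 1) := by
    rw [← pow_add]
    congr 1
    omega
  refine ⟨(X - 1) ^ (k + 1) * g + (G0 p).map (Int.castRingHom (ZMod p)) *
    H.map (Int.castRingHom (ZMod p)) * X ^ (p - a), ?_⟩
  rw [hmap]
  linear_combination -g * e1 - g * e2 + g * e3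

end

end Pool.Agent.U549.LF
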