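import Pool.Agent.U549.LF.Rel
import Pool.Agent.U549.LF.Pole
import Pool.Agent.N840.FC.One

/-!
# The symmetric family of the embeddings at which `x`, `y`, `z` have equal valuations
-/

set_option autoImplicit false

namespace Pool.Agent.U549.LF

open NumberField IsDedekindDomain Polynomial Pool.Agent.Y546.WQ Pool.Agent.N840.FC

/-- the Bernoulli conditions; `m` is the degree of the field, `s` the sum of the local degrees at
the primes above `p` at which the valuations are equal -/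
def BernS (p m s : ℕ) : Prop :=
  (m + s + 3 ≤ p ∧ ∀ k ∈ irr p, k + 2 * s + 1 < p) ∨
    s * (((irr p).card + 1) * ((irr p).card + 2)) + m + 3 ≤ p + s

theorem BernS.le {p m s : ℕ} (h : BernS p m s) : m + 3 ≤ p := by
  rcases h with h | h
  · omega
  · have e : s * 2 ≤ s * (((irr p).card + 1) * ((irr p).card + 2)) := by
      apply Nat.mul_le_mul_left
      nlinarith [(irr p).card.zero_le]
    omega

theorem BernS.le' {p m s : ℕ} (h : BernS p m s) : m + s + 3 ≤ p := by
  rcases h with h | h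
  · omega
  · have e : s * 2 ≤ s * (((irr p).card + 1) * ((irr p).card + 2)) := by
      apply Nat.mul_le_mul_left
      nlinarith [(irr p).card.zero_le]
    omega

/-- solutions which are not divisible by any prime above `p` -/
structure Mix (p : ℕ) (K : Type) [Field K] [NumberField K] (X Y Z : 𝓞 K) : Prop where
  X0 : X ≠ 0
  Y0 : Y ≠ 0
  Z0 : Z ≠ 0
  eq : X ^ p + Y ^ p + Z ^ p = 0
  cp : ∀ P : Ideal (𝓞 K), P.IsPrime → ((p : ℕ) : 𝓞 K) ∈ P → ¬ (X ∈ P ∧ Y ∈ P ∧ Z ∈ P)

theorem Mix.rot {p : ℕ} {K : Type} [Field K] [NumberField K] {X Y Z : 𝓞 K} (h : Mix p K X Y Z) :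
    Mix p K Y Z X :=
  ⟨h.Y0, h.Z0, h.X0, by linear_combination h.eq, fun P hP hpP h1 =>
    h.cp P hP hpP ⟨h1.2.2, h1.1, h1.2.1⟩⟩

theorem root_cancel {F : Type*} [Field F] (r : F) {k k' : ℕ} {A B : F[X]} (hA : A.eval r ≠ 0)
    (hB : B.eval r ≠ 0) (h : (X - C r) ^ k * A = (X - C r) ^ k' * B) : k = k' ∧ A = B := by
  have hX : (X - C r : F[X]) ≠ 0 := X_sub_C_ne_zero r
  have main : ∀ {k d : ℕ} {A B : F[X]}, A.eval r ≠ 0 →
      (X - C r) ^ k * A = (X - C r) ^ (k + d) * B → d = 0 ∧ A = B := by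
    intro k d A B hA h
    rw [pow_add, mul_assoc] at h
    have h1 := mul_left_cancel₀ (pow_ne_zero k hX) h
    have h2 : d = 0 := by
      by_contra hd
      apply hA
      rw [h1, eval_mul, eval_pow, eval_sub, eval_X, eval_C, sub_self, zero_pow hd, zero_mul]
    subst h2
    rw [pow_zero, one_mul] at h1
    exact ⟨rfl, h1⟩
  rcases le_total k k' with hk | hk
  · obtain ⟨d, rfl⟩ := Nat.exists_eq_add_of_le hk
    obtain ⟨h1, h2⟩ := main hA h
    exact ⟨by omega, h2⟩
  · obtain ⟨d, rfl⟩ := Nat.exists_eq_add_of_le hk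
    obtain ⟨h1, h2⟩ := main hB h.symm
    exact ⟨by omega, h2.symm⟩

theorem exists_dec {F : Type*} [Field F] {f : F[X]} (hf : f ≠ 0) :
    ∃ (k a : ℕ) (g : F[X]), f = (X - 1) ^ k * (X ^ a * g) ∧ g.eval 1 ≠ 0 ∧ g.eval 0 ≠ 0 := by
  obtain ⟨q, hq, hqn⟩ := exists_eq_pow_rootMultiplicity_mul_and_not_dvd f hf 1
  have hq0 : q ≠ 0 := by
    rintro rfl
    exact hqn (dvd_zero _)
  obtain ⟨g, hg, hgn⟩ := exists_eq_pow_rootMultiplicity_mul_and_not_dvd q hq0 0
  rw [C_0, sub_zero] at hg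
  refine ⟨rootMultiplicity 1 f, rootMultiplicity 0 q, g, ?_, ?_, ?_⟩
  · rw [← hg, ← C_1]
    exact hq
  · intro h
    apply hqn
    rw [dvd_iff_isRoot, IsRoot.def, hg, eval_mul, h, mul_zero]
  · intro h
    exact hgn (dvd_iff_isRoot.2 h)

section

variable {p : ℕ} [Fact p.Prime] {E : Type} [Field E] [NumberField E]
  {K N : Type} [Field K] [NumberField K] [Field N] [NumberField N] [Algebra E N]

theorem pal_prod [IsGalois E N] (hcard : Nat.card (K →+* N) = Module.finrank ℚ K)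
    (hdv : Module.finrank E N ∣ (Module.finrank ℚ K).factorial) (hp2 : p ≠ 2) (c : Cyc p E)
    {F : Type} [Field F] [CharP F p] (Q : Ideal (𝓞 N))
    (hQ : Q.IsPrime) (hQp : ((p : ℕ) : 𝓞 N) ∈ Q) (ψ : 𝓞 N →+* F)
    (hψ : ∀ w : 𝓞 N, ψ w = 0 ↔ w ∈ Q) {x y z : 𝓞 K} (hs : Mix p K x y z)
    (D : Finset (K →+* N)) (hD : ∀ τ : K →+* N, τ ∈ D ↔
      (ψ (RingOfIntegers.mapRingHom τ x) ≠ 0 ∧ ψ (RingOfIntegers.mapRingHom τ y) ≠ 0 ∧
        ψ (RingOfIntegers.mapRingHom τ z) ≠ 0))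
    (hreg : BernS p (Module.finrank ℚ K) D.card) (t : F) (ht : t ≠ 0) :
    ∏ τ ∈ D, (ψ (RingOfIntegers.mapRingHom τ x) + t * ψ (RingOfIntegers.mapRingHom τ y)) =
      ∏ τ ∈ D, (ψ (RingOfIntegers.mapRingHom τ y) +
        t * ψ (RingOfIntegers.mapRingHom τ x)) := by
  classical
  have hpp : p.Prime := Fact.out
  have hmem : ∀ τ : K →+* N, ((p : ℕ) : 𝓞 K) ∈ Q.comap (RingOfIntegers.mapRingHom τ) := by
    intro τ
    rw [Ideal.mem_comap, map_natCast]
    exact hQp
  have hsum : ∀ τ : K →+* N, ψ (RingOfIntegers.mapRingHom τ x) +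
      ψ (RingOfIntegers.mapRingHom τ y) + ψ (RingOfIntegers.mapRingHom τ z) = 0 := by
    intro τ
    rw [← map_add, ← map_add, hψ, ← map_add, ← map_add]
    exact lin_p hpp (Q.comap (RingOfIntegers.mapRingHom τ)) (hQ.comap _) (hmem τ) hs.eq
  have hnot : ∀ τ : K →+* N, ¬ (ψ (RingOfIntegers.mapRingHom τ x) = 0 ∧
      ψ (RingOfIntegers.mapRingHom τ y) = 0 ∧ ψ (RingOfIntegers.mapRingHom τ z) = 0) := by
    intro τ h
    refine hs.cp _ (hQ.comap _) (hmem τ) ⟨?_, ?_, ?_⟩
    · exact (hψ _).1 h.1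
    · exact (hψ _).1 h.2.1
    · exact (hψ _).1 h.2.2
  obtain ⟨f, hdeg, hc0, hcm, hev, hf⟩ := Y290.WQ.mainNORM K x y
  have hf := hf N hcard
  let κ : ZMod p →+* F := ZMod.castHom (dvd_refl p) F
  have hκ : κ.comp (Int.castRingHom (ZMod p)) = ψ.comp (Int.castRingHom (𝓞 N)) :=
    RingHom.ext_int _ _
  have hfF : (f.map (Int.castRingHom (ZMod p))).map κ =
      ∏ τ : K →+* N, (C (ψ (RingOfIntegers.mapRingHom τ x)) +
        X * C (ψ (RingOfIntegers.mapRingHom τ y))) := by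
    rw [Polynomial.map_map, hκ, ← Polynomial.map_map, hf]
    unfold nrmP
    rw [Polynomial.map_prod]
    refine Finset.prod_congr rfl fun τ _ => ?_
    simp
  -- the factors outside of `D`
  have hfac : ∀ τ : K →+* N, ∃ (d : F) (k' a' : ℕ), τ ∉ D → (d ≠ 0 ∧ k' ≤ 1 ∧
      C (ψ (RingOfIntegers.mapRingHom τ x)) + X * C (ψ (RingOfIntegers.mapRingHom τ y)) =
        C d * ((X - 1) ^ k' * X ^ a')) := by
    intro τ
    by_cases hτ : τ ∈ D
    · exact ⟨0, 0, 0, fun h => absurd hτ h⟩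
    rw [hD] at hτ
    have e1 := hsum τ
    have e2 := hnot τ
    by_cases hz : ψ (RingOfIntegers.mapRingHom τ z) = 0
    · refine ⟨ψ (RingOfIntegers.mapRingHom τ y), 1, 0, fun _ => ⟨?_, le_rfl, ?_⟩⟩
      · intro h
        rw [hz, h, add_zero, add_zero] at e1
        exact e2 ⟨e1, h, hz⟩
      · have e3 : ψ (RingOfIntegers.mapRingHom τ x) = -ψ (RingOfIntegers.mapRingHom τ y) := by
          rw [hz] at e1
          linear_combination e1
        rw [e3, C_neg]
        ring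
    · by_cases hx : ψ (RingOfIntegers.mapRingHom τ x) = 0
      · refine ⟨ψ (RingOfIntegers.mapRingHom τ y), 0, 1, fun _ => ⟨?_, by norm_num, ?_⟩⟩
        · intro h
          rw [hx, h, zero_add, zero_add] at e1
          exact hz e1
        · rw [hx, C_0]
          ring
      · refine ⟨ψ (RingOfIntegers.mapRingHom τ x), 0, 0, fun _ => ⟨hx, by norm_num, ?_⟩⟩
        have hy : ψ (RingOfIntegers.mapRingHom τ y) = 0 := by
          by_contra hy
          exact hτ ⟨hx, hy, hz⟩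
        rw [hy, C_0]
        ring
  choose d k' a' hfac using hfac
  obtain ⟨h, hh⟩ : ∃ h : F[X], h = ∏ τ ∈ D, (C (ψ (RingOfIntegers.mapRingHom τ x)) +
      X * C (ψ (RingOfIntegers.mapRingHom τ y))) := ⟨_, rfl⟩
  obtain ⟨d0, hd0⟩ : ∃ d0 : F, d0 = ∏ τ ∈ Dᶜ, d τ := ⟨_, rfl⟩
  have hd0n : d0 ≠ 0 := by
    rw [hd0]
    exact Finset.prod_ne_zero_iff.2 fun τ hτ => (hfac τ (Finset.mem_compl.1 hτ)).1
  have hprod : ∏ τ : K →+* N, (C (ψ (RingOfIntegers.mapRingHom τ x)) +
        X * C (ψ (RingOfIntegers.mapRingHom τ y))) =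
      (X - 1) ^ (∑ τ ∈ Dᶜ, k' τ) * (X ^ (∑ τ ∈ Dᶜ, a' τ) * (C d0 * h)) := by
    rw [← Finset.prod_mul_prod_compl D, ← hh,
      Finset.prod_congr (s₁ := Dᶜ) rfl fun τ hτ => (hfac τ (Finset.mem_compl.1 hτ)).2.2,
      Finset.prod_mul_distrib, Finset.prod_mul_distrib, Finset.prod_pow_eq_pow_sum,
      Finset.prod_pow_eq_pow_sum, ← map_prod, ← hd0]
    ring
  have hx0 : ∀ τ ∈ D, ψ (RingOfIntegers.mapRingHom τ x) ≠ 0 := fun τ hτ => ((hD τ).1 hτ).1
  have hy0 : ∀ τ ∈ D, ψ (RingOfIntegers.mapRingHom τ y) ≠ 0 := fun τ hτ => ((hD τ).1 hτ).2.1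
  have hz0 : ∀ τ ∈ D, ψ (RingOfIntegers.mapRingHom τ z) ≠ 0 := fun τ hτ => ((hD τ).1 hτ).2.2
  have heval : ∀ r : F, h.eval r = ∏ τ ∈ D, (ψ (RingOfIntegers.mapRingHom τ x) +
      r * ψ (RingOfIntegers.mapRingHom τ y)) := by
    intro r
    rw [hh, eval_prod]
    refine Finset.prod_congr rfl fun τ _ => ?_
    rw [eval_add, eval_mul, eval_C, eval_C, eval_X]
  have hh1 : (C d0 * h).eval 1 ≠ 0 := by
    rw [eval_mul, eval_C, heval]
    refine mul_ne_zero hd0n (Finset.prod_ne_zero_iff.2 fun τ hτ => ?_)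
    intro e
    apply hz0 τ hτ
    linear_combination hsum τ - e
  have hh0 : (C d0 * h).eval 0 ≠ 0 := by
    rw [eval_mul, eval_C, heval]
    refine mul_ne_zero hd0n (Finset.prod_ne_zero_iff.2 fun τ hτ => ?_)
    rw [zero_mul, add_zero]
    exact hx0 τ hτ
  have hhd : h.natDegree = D.card := by
    rw [hh, natDegree_prod]
    · rw [Finset.sum_congr rfl (g := fun _ => 1), Finset.sum_const, smul_eq_mul, mul_one]
      intro τ hτ
      have e : (C (ψ (RingOfIntegers.mapRingHom τ x)) + X * C (ψ (RingOfIntegers.mapRingHom τ y)))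
        = C (ψ (RingOfIntegers.mapRingHom τ y)) * X + C (ψ (RingOfIntegers.mapRingHom τ x)) := by
        ring
      rw [e]
      exact natDegree_linear (hy0 τ hτ)
    · intro τ hτ e
      have := congrArg (fun q : F[X] => q.coeff 0) e
      simp at this
      exact hx0 τ hτ this
  -- decomposition modulo `p`
  have hfne : f.map (Int.castRingHom (ZMod p)) ≠ 0 := by
    intro e
    rw [e, Polynomial.map_zero, hprod] at hfF
    have hX1 : (X - 1 : F[X]) ≠ 0 := by
      rw [← C_1]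
      exact X_sub_C_ne_zero 1
    have hne : C d0 * h ≠ 0 := by
      intro e
      rw [e, eval_zero] at hh1
      exact hh1 rfl
    exact mul_ne_zero (pow_ne_zero _ hX1) (mul_ne_zero (pow_ne_zero _ X_ne_zero) hne) hfF.symm
  obtain ⟨k, a, g, hg, hg1, hg0⟩ := exists_dec hfne
  have hgF : (X - 1) ^ k * (X ^ a * g.map κ) = (X - 1) ^ (∑ τ ∈ Dᶜ, k' τ) *
      (X ^ (∑ τ ∈ Dᶜ, a' τ) * (C d0 * h)) := by
    rw [← hprod, ← hfF, hg, Polynomial.map_mul, Polynomial.map_mul, Polynomial.map_pow,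
      Polynomial.map_pow, Polynomial.map_sub, Polynomial.map_one, map_X]
  have eκ1 : (g.map κ).eval 1 ≠ 0 := by
    have e := Polynomial.eval_one_map κ g
    rw [e]
    exact (map_ne_zero κ).2 hg1
  have eκ0 : (g.map κ).eval 0 ≠ 0 := by
    have e := Polynomial.eval_zero_map κ g
    rw [e]
    exact (map_ne_zero κ).2 hg0
  obtain ⟨hk, hgF2⟩ := root_cancel (1 : F) (k := k) (k' := ∑ τ ∈ Dᶜ, k' τ)
    (A := X ^ a * g.map κ) (B := X ^ (∑ τ ∈ Dᶜ, a' τ) * (C d0 * h))
    (by rw [eval_mul, eval_pow, eval_X, one_pow, one_mul]; exact eκ1)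
    (by rw [eval_mul, eval_pow, eval_X, one_pow, one_mul]; exact hh1)
    (by rw [C_1]; exact hgF)
  obtain ⟨ha, hgF3⟩ := root_cancel (0 : F) (k := a) (k' := ∑ τ ∈ Dᶜ, a' τ)
    (A := g.map κ) (B := C d0 * h) eκ0 hh0 (by rw [C_0, sub_zero]; exact hgF2)
  have hgd : g.natDegree = D.card := by
    rw [← natDegree_map_eq_of_injective κ.injective g, hgF3, natDegree_C_mul hd0n, hhd]
  have hks : k + D.card ≤ Module.finrank ℚ K := by
    have e1 : ∑ τ ∈ Dᶜ, k' τ ≤ Dᶜ.card := by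
      have := Finset.sum_le_card_nsmul Dᶜ k' 1 fun τ hτ => (hfac τ (Finset.mem_compl.1 hτ)).2.1
      simpa using this
    have e2 := Finset.card_compl_add_card D
    rw [← Nat.card_eq_fintype_card, hcard] at e2
    omega
  have hadeg : a ≤ Module.finrank ℚ K := by
    have e1 : (f.map (Int.castRingHom (ZMod p))).natDegree ≤ Module.finrank ℚ K :=
      natDegree_map_le.trans hdeg
    rw [hg] at e1
    have hX1 : (X - 1 : (ZMod p)[X]) ≠ 0 := by
      rw [← C_1]
      exact X_sub_C_ne_zero 1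
    have hgn : g ≠ 0 := by
      rintro rfl
      rw [eval_zero] at hg1
      exact hg1 rfl
    rw [natDegree_mul (pow_ne_zero _ hX1) (mul_ne_zero (pow_ne_zero _ X_ne_zero) hgn),
      natDegree_mul (pow_ne_zero _ X_ne_zero) hgn, natDegree_X_pow] at e1
    omega
  have hm3 := hreg.le
  have hm3' := hreg.le'
  obtain ⟨v1, v2, v3⟩ := fldV (by omega) hdv hp2 c x y z hs.Y0 hs.Z0 hs.eq f hf
  have hR : RelQ p (p - 1 - k) g := relQ_of hp2 c f v1 v2 v3 k a g (by omega) (by omega) hg1 hg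
  have hc0' : g.coeff 0 ≠ 0 := by rwa [coeff_zero_eq_eval_zero]
  have hcs : g.coeff D.card ≠ 0 := by
    rw [← hgd]
    intro e
    rw [coeff_natDegree, leadingCoeff_eq_zero] at e
    rw [e, eval_zero] at hg1
    exact hg1 rfl
  have hpal : g.reflect D.card = g := by
    rcases Nat.eq_zero_or_pos D.card with h0 | hpos
    · rw [h0] at hgd ⊢
      rw [eq_C_of_natDegree_eq_zero hgd, reflect_C, pow_zero, mul_one]
    · rcases hreg with hreg | hreg
      · refine pal_mix (by omega) (by omega) hgd.le hc0' hcs hg1 hR fun j hj h3j hjm => ?_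
        apply reg_of Y61.WQ.mainBER j hj h3j (by omega)
        intro hk
        have := hreg.2 _ hk
        omega
      · have e : ((irr p).image fun k => p - k).card ≤ (irr p).card := Finset.card_image_le
        have e2 : (((irr p).image fun k => p - k).card + 1) *
            (((irr p).image fun k => p - k).card + 2) ≤ ((irr p).card + 1) * ((irr p).card + 2) :=
          Nat.mul_le_mul (by omega) (by omega)
        have e3 := Nat.mul_le_mul_left D.card e2
        refine pal_pole ((irr p).image fun k => p - k) hpos (by omega) (by omega) hgd.le hc0' hcs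
          hg1 hR ?_
        intro j hj h3j hjp hjJ
        apply reg_of Y61.WQ.mainBER j hj h3j hjp
        intro hk
        apply hjJ
        rw [Finset.mem_image]
        exact ⟨p - j, hk, by omega⟩
  -- evaluation
  let _ : Invertible t := invertibleOfNonzero ht
  have h3 := eval₂_reflect_mul_pow κ t D.card g hgd.le
  rw [hpal, ← eval_map, ← eval_map, hgF3, eval_mul, eval_mul, eval_C, eval_C, heval, heval,
    mul_assoc] at h3
  have h4 := mul_left_cancel₀ hd0n h3
  rw [← h4, ← Finset.prod_const, ← Finset.prod_mul_distrib]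
  refine Finset.prod_congr rfl fun τ _ => ?_
  have h5 : ⅟t * t = 1 := invOf_mul_self t
  linear_combination ψ ((RingOfIntegers.mapRingHom τ) y) * h5

end

end Pool.Agent.U549.LF
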